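import Mathlib

namespace Pool.Agent.V1166.GA

universe u v w

variable {S : Type u} [Ring S]

/-- A grading of a left module, given by its homogeneous component operators. -/
structure Gr (A : ℤ → AddSubgroup S) (M : Type v) [AddCommGroup M] [Module S M] where
  e : ℤ → M →+ M
  ee : ∀ i m, e i (e i m) = e i m
  ne : ∀ i j m, i ≠ j → e i (e j m) = 0
  fin : ∀ m, ∃ s : Finset ℤ, m = ∑ i ∈ s, e i m
  smul : ∀ i j (a : S) (m : M), a ∈ A i → e (i + j) (a • m) = a • e j m

/-- The ring itself, graded. -/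
structure GRing (A : ℤ → AddSubgroup S) where
  gr : Gr A S
  mem : ∀ i a, gr.e i a ∈ A i
  self : ∀ i a, a ∈ A i → gr.e i a = a
  one : (1 : S) ∈ A 0

variable {A : ℤ → AddSubgroup S}

namespace Gr

variable {M : Type v} [AddCommGroup M] [Module S M] (G : Gr A M)

lemma e_e (i j : ℤ) (m : M) : G.e i (G.e j m) = if i = j then G.e j m else 0 := by
  split_ifs with h
  · subst h; exact G.ee i m
  · exact G.ne i j m h

lemma zero_of_notin {m : M} {s : Finset ℤ} (h : m = ∑ i ∈ s, G.e i m) {i : ℤ} (hi : i ∉ s) :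
    G.e i m = 0 := by
  rw [h, map_sum]
  refine Finset.sum_eq_zero fun j hj => G.ne i j m ?_
  rintro rfl; exact hi hj

lemma ext {x y : M} (h : ∀ i, G.e i x = G.e i y) : x = y := by
  obtain ⟨s, hs⟩ := G.fin (x - y)
  rw [← sub_eq_zero, hs]
  refine Finset.sum_eq_zero fun j _ => ?_
  rw [map_sub, h j, sub_self]

lemma smul' {i l : ℤ} {a : S} (ha : a ∈ A i) (m : M) : G.e l (a • m) = a • G.e (l - i) m := by
  have := G.smul i (l - i) a m ha
  rwa [add_sub_cancel] at this

lemma sum_eq {m : M} {s : Finset ℤ} (h : ∀ i ∉ s, G.e i m = 0) : ∑ i ∈ s, G.e i m = m := by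
  apply G.ext
  intro j
  rw [map_sum]
  by_cases hj : j ∈ s
  · rw [Finset.sum_eq_single j, G.ee]
    · intro i _ hi; exact G.ne j i m (Ne.symm hi)
    · intro h'; exact absurd hj h'
  · rw [h j hj]
    exact Finset.sum_eq_zero fun i hi => G.ne j i m (by rintro rfl; exact hj hi)

/-- graded submodules -/
def Sub (N : Submodule S M) : Prop := ∀ i x, x ∈ N → G.e i x ∈ N

lemma sub_bot : G.Sub ⊥ := by
  intro i x hx
  rw [Submodule.mem_bot] at hx ⊢
  rw [hx, map_zero]

lemma sub_top : G.Sub ⊤ := fun _ _ _ => trivial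

lemma sub_inf {N P : Submodule S M} (h : G.Sub N) (h' : G.Sub P) : G.Sub (N ⊓ P) :=
  fun i x hx => ⟨h i x hx.1, h' i x hx.2⟩

lemma sub_sup {N P : Submodule S M} (h : G.Sub N) (h' : G.Sub P) : G.Sub (N ⊔ P) := by
  intro i x hx
  obtain ⟨y, hy, z, hz, rfl⟩ := Submodule.mem_sup.1 hx
  rw [map_add]
  exact Submodule.add_mem_sup (h i y hy) (h' i z hz)

/-- restriction of a grading to a graded submodule -/
def sub (N : Submodule S M) (h : G.Sub N) : Gr A N where
  e i := AddMonoidHom.mk' (fun x => ⟨G.e i x, h i x x.2⟩) (by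
    intro a b; ext; simp)
  ee i m := by ext; exact G.ee i m
  ne i j m hij := by ext; exact G.ne i j m hij
  fin m := by
    obtain ⟨s, hs⟩ := G.fin (m : M)
    refine ⟨s, ?_⟩
    ext
    rw [AddSubmonoidClass.coe_finsetSum]
    exact hs
  smul i j a m ha := by ext; exact G.smul i j a m ha

@[simp] lemma sub_e (N : Submodule S M) (h : G.Sub N) (i : ℤ) (x : N) :
    (((G.sub N h).e i x : N) : M) = G.e i x := rfl

/-- the quotient grading -/
def quot (N : Submodule S M) (h : G.Sub N) : Gr A (M ⧸ N) where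
  e i := QuotientAddGroup.map N.toAddSubgroup N.toAddSubgroup (G.e i) (fun x hx => h i x hx)
  ee i m := by
    obtain ⟨x, rfl⟩ := Submodule.Quotient.mk_surjective N m
    exact congrArg (Submodule.Quotient.mk (p := N)) (G.ee i x)
  ne i j m hij := by
    obtain ⟨x, rfl⟩ := Submodule.Quotient.mk_surjective N m
    exact congrArg (Submodule.Quotient.mk (p := N)) (G.ne i j x hij)
  fin m := by
    obtain ⟨x, rfl⟩ := Submodule.Quotient.mk_surjective N m
    obtain ⟨s, hs⟩ := G.fin x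
    refine ⟨s, ?_⟩
    have : (Submodule.Quotient.mk (p := N)) x = N.mkQ (∑ i ∈ s, G.e i x) := by
      rw [← hs]; rfl
    refine this.trans ?_
    rw [map_sum]
    rfl
  smul i j a m ha := by
    obtain ⟨x, rfl⟩ := Submodule.Quotient.mk_surjective N m
    exact congrArg (Submodule.Quotient.mk (p := N)) (G.smul i j a x ha)

@[simp] lemma quot_e (N : Submodule S M) (h : G.Sub N) (i : ℤ) (x : M) :
    (G.quot N h).e i (Submodule.Quotient.mk x) = Submodule.Quotient.mk (G.e i x) := rfl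

end Gr

/-- homogeneous maps of degree `d` -/
def Hg {M : Type v} [AddCommGroup M] [Module S M] (G : Gr A M)
    {N : Type w} [AddCommGroup N] [Module S N] (G' : Gr A N) (d : ℤ) (φ : M →ₗ[S] N) : Prop :=
  ∀ i x, G'.e (i + d) (φ x) = φ (G.e i x)

section hom

variable {M : Type v} [AddCommGroup M] [Module S M] {G : Gr A M}
  {N : Type w} [AddCommGroup N] [Module S N] {G' : Gr A N}

lemma Hg.e' {d : ℤ} {φ : M →ₗ[S] N} (h : Hg G G' d φ) (l : ℤ) (x : M) :
    G'.e l (φ x) = φ (G.e (l - d) x) := by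
  have := h (l - d) x
  rwa [sub_add_cancel] at this

lemma Hg.ker {d : ℤ} {φ : M →ₗ[S] N} (h : Hg G G' d φ) : G.Sub (LinearMap.ker φ) := by
  intro i x hx
  rw [LinearMap.mem_ker] at hx ⊢
  rw [← h, hx, map_zero]

lemma Hg.range {d : ℤ} {φ : M →ₗ[S] N} (h : Hg G G' d φ) : G'.Sub (LinearMap.range φ) := by
  rintro i _ ⟨x, rfl⟩
  rw [h.e']
  exact ⟨_, rfl⟩

lemma Hg.comp {P : Type*} [AddCommGroup P] [Module S P] {G'' : Gr A P} {d d' : ℤ}
    {φ : M →ₗ[S] N} {ψ : N →ₗ[S] P}
    (h : Hg G G' d φ) (h' : Hg G' G'' d' ψ) : Hg G G'' (d + d') (ψ ∘ₗ φ) := by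
  intro i x
  rw [LinearMap.comp_apply, ← add_assoc, h', h]
  rfl

lemma Hg.id : Hg G G 0 (LinearMap.id : M →ₗ[S] M) := by
  intro i x; simp

lemma Hg.zero {d : ℤ} : Hg G G' d (0 : M →ₗ[S] N) := by
  intro i x; simp

lemma Hg.neg {d : ℤ} {φ : M →ₗ[S] N} (h : Hg G G' d φ) : Hg G G' d (-φ) := by
  intro i x; simp [h i x]

lemma Hg.add {d : ℤ} {φ ψ : M →ₗ[S] N} (h : Hg G G' d φ) (h' : Hg G G' d ψ) :
    Hg G G' d (φ + ψ) := by
  intro i x; simp [h i x, h' i x]

lemma Hg.sub {d : ℤ} {φ ψ : M →ₗ[S] N} (h : Hg G G' d φ) (h' : Hg G G' d ψ) :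
    Hg G G' d (φ - ψ) := by
  intro i x; simp [h i x, h' i x]

lemma Hg.symm {d : ℤ} {φ : M ≃ₗ[S] N} (h : Hg G G' d (φ : M →ₗ[S] N)) :
    Hg G' G (-d) (φ.symm : N →ₗ[S] M) := by
  intro i x
  obtain ⟨y, rfl⟩ := φ.surjective x
  have := h (i - d) y
  rw [sub_add_cancel] at this
  have h2 : G'.e i (φ y) = φ (G.e (i - d) y) := this
  simp [h2, sub_eq_add_neg]

lemma Hg.image_sub {d : ℤ} {φ : M →ₗ[S] N} (h : Hg G G' d φ) {P : Submodule S M} (hP : G.Sub P) :
    G'.Sub (P.map φ) := by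
  rintro i _ ⟨x, hx, rfl⟩
  rw [h.e']
  exact ⟨_, hP _ _ hx, rfl⟩

lemma Hg.comap_sub {d : ℤ} {φ : M →ₗ[S] N} (h : Hg G G' d φ) {P : Submodule S N} (hP : G'.Sub P) :
    G.Sub (P.comap φ) := by
  intro i x hx
  rw [Submodule.mem_comap] at hx ⊢
  rw [← h]
  exact hP _ _ hx

lemma Hg.pow {φ : Module.End S M} (h : Hg G G 0 φ) (n : ℕ) : Hg G G 0 (φ ^ n) := by
  induction n with
  | zero => intro i x; simp
  | succ n ih =>
    rw [pow_succ]
    have := h.comp ih
    rw [zero_add] at this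
    exact this

lemma Gr.subtype_hg {P : Submodule S M} (hP : G.Sub P) : Hg (G.sub P hP) G 0 P.subtype := by
  intro i x; simp

end hom

/-- finitely many degrees -/
def Gr.Bdd {M : Type v} [AddCommGroup M] [Module S M] (G : Gr A M) (L : ℕ) : Prop :=
  ∀ i m, (L : ℤ) < |i| → G.e i m = 0

lemma Gr.Bdd.sum {M : Type v} [AddCommGroup M] [Module S M] {G : Gr A M} {L : ℕ} (h : G.Bdd L)
    (m : M) : ∑ i ∈ Finset.Icc (-(L : ℤ)) L, G.e i m = m := by
  apply G.sum_eq
  intro i hi
  apply h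
  rw [Finset.mem_Icc, ← abs_le] at hi
  exact not_le.1 hi

/-- homogeneous components of a linear map -/
noncomputable def comp {M : Type v} [AddCommGroup M] [Module S M] (G : Gr A M) (L : ℕ)
    {N : Type w} [AddCommGroup N] [Module S N] (G' : Gr A N) (φ : M →ₗ[S] N) (d : ℤ) : M →+ N :=
  ∑ j ∈ Finset.Icc (-(L : ℤ)) L, (G'.e (j + d)).comp (φ.toAddMonoidHom.comp (G.e j))

section comp

variable {M : Type v} [AddCommGroup M] [Module S M] {G : Gr A M}
  {N : Type w} [AddCommGroup N] [Module S N] {G' : Gr A N}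

lemma e_comp {L : ℕ} (h : G.Bdd L) (φ : M →ₗ[S] N) (d l : ℤ) (m : M) :
    G'.e l (comp G L G' φ d m) = G'.e l (φ (G.e (l - d) m)) := by
  unfold comp
  rw [AddMonoidHom.finsetSum_apply, map_sum]
  by_cases hl : l - d ∈ Finset.Icc (-(L : ℤ)) L
  · rw [Finset.sum_eq_single (l - d)]
    · simp only [AddMonoidHom.comp_apply, sub_add_cancel, G'.ee]
      rfl
    · intro b _ hb
      simp only [AddMonoidHom.comp_apply]
      apply G'.ne
      omega
    · intro h'; exact absurd hl h'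
  · rw [Finset.sum_eq_zero, h (l - d), map_zero, map_zero]
    · rw [Finset.mem_Icc, ← abs_le] at hl
      exact not_le.1 hl
    · intro b hb
      simp only [AddMonoidHom.comp_apply]
      apply G'.ne
      rintro rfl
      apply hl
      simpa using hb

lemma comp_smul (H : GRing A) {L : ℕ} (h : G.Bdd L) (φ : M →ₗ[S] N) (d : ℤ) (a : S) (m : M) :
    comp G L G' φ d (a • m) = a • comp G L G' φ d m := by
  obtain ⟨s, hs⟩ := H.gr.fin a
  rw [hs, Finset.sum_smul, map_sum, Finset.sum_smul]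
  refine Finset.sum_congr rfl fun k _ => ?_
  apply G'.ext
  intro l
  have ha := H.mem k a
  rw [e_comp h, G.smul' ha, map_smul, G'.smul' ha, G'.smul' ha, e_comp h,
    show l - d - k = l - k - d by ring]

/-- homogeneous component of degree `d` of a linear map -/
noncomputable def cmp (H : GRing A) {L : ℕ} (h : G.Bdd L) (G' : Gr A N) (φ : M →ₗ[S] N) (d : ℤ) :
    M →ₗ[S] N where
  toFun := comp G L G' φ d
  map_add' := map_add _
  map_smul' := comp_smul H h φ d

lemma e_cmp (H : GRing A) {L : ℕ} (h : G.Bdd L) (φ : M →ₗ[S] N) (d l : ℤ) (m : M) :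
    G'.e l (cmp H h G' φ d m) = G'.e l (φ (G.e (l - d) m)) := e_comp h φ d l m

lemma cmp_hg (H : GRing A) {L : ℕ} (h : G.Bdd L) (φ : M →ₗ[S] N) (d : ℤ) :
    Hg G G' d (cmp H h G' φ d) := by
  intro i x
  apply G'.ext
  intro l
  rw [G'.e_e]
  simp only [e_cmp]
  rw [G.e_e]
  by_cases hl : l = i + d
  · subst hl
    simp only [add_sub_cancel_right, if_true]
  · rw [if_neg hl, if_neg (by omega), map_zero, map_zero]

lemma cmp_eq_zero (H : GRing A) {L : ℕ} (h : G.Bdd L) {L' : ℕ} (h' : G'.Bdd L') (φ : M →ₗ[S] N)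
    {d : ℤ} (hd : ((L + L' : ℕ) : ℤ) < |d|) : cmp H h G' φ d = 0 := by
  ext m
  apply G'.ext
  intro l
  rw [e_cmp, LinearMap.zero_apply, map_zero]
  by_cases hl : (L' : ℤ) < |l|
  · rw [h' _ _ hl]
  · rw [h, map_zero, map_zero]
    have : |d| ≤ |l| + |l - d| := by
      have := abs_sub l (l - d)
      have h2 : l - (l - d) = d := by ring
      rw [h2] at this
      exact this
    push_cast at hd
    omega

lemma sum_cmp (H : GRing A) {L : ℕ} (h : G.Bdd L) {L' : ℕ} (h' : G'.Bdd L') (φ : M →ₗ[S] N) :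
    ∑ d ∈ Finset.Icc (-((L + L' : ℕ) : ℤ)) (L + L' : ℕ), cmp H h G' φ d = φ := by
  ext m
  apply G'.ext
  intro l
  rw [LinearMap.sum_apply, map_sum]
  simp only [e_cmp]
  rw [← map_sum, ← map_sum]
  by_cases hl : (L' : ℤ) < |l|
  · rw [h' _ _ hl, h' _ _ hl]
  · congr 2
    have key : ∀ i, i ∉ (Finset.Icc (-((L + L' : ℕ) : ℤ)) (L + L' : ℕ)).image (fun d => l - d) →
        G.e i m = 0 := by
      intro i hi
      apply h
      by_contra hc
      apply hi
      rw [Finset.mem_image]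
      refine ⟨l - i, ?_, by ring⟩
      rw [Finset.mem_Icc, ← abs_le]
      have := abs_sub l i
      push_cast
      omega
    have := G.sum_eq key
    rw [Finset.sum_image (by intro a _ b _ hab; simpa using hab)] at this
    exact this

end comp

end Pool.Agent.V1166.GA
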