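import Pool.Agent.V1166.GA.HS

namespace Pool.Agent.V1166.GA

universe u v w

variable {S : Type u} [Ring S] {A : ℤ → AddSubgroup S}

section compl

variable {M : Type v} [AddCommGroup M] [Module S M] (G : Gr A M)

/-- projection onto a graded summand is homogeneous -/
lemma proj_hg {P Q : Submodule S M} (hP : G.Sub P) (hQ : G.Sub Q) (h : IsCompl P Q) :
    Hg G (G.sub P hP) 0 (P.projectionOnto Q h) := by
  intro i x
  rw [add_zero]
  obtain ⟨p, hp, q, hq, rfl⟩ := Submodule.mem_sup.1 (show x ∈ P ⊔ Q by rw [h.sup_eq_top]; trivial)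
  have e1 : P.projectionOnto Q h (p + q) = ⟨p, hp⟩ := by
    rw [map_add, (Submodule.projectionOnto_apply_eq_zero_iff h).2 hq, add_zero]
    exact Submodule.projectionOnto_apply_left h ⟨p, hp⟩
  have e2 : P.projectionOnto Q h (G.e i (p + q)) = ⟨G.e i p, hP i p hp⟩ := by
    rw [map_add, map_add, (Submodule.projectionOnto_apply_eq_zero_iff h).2 (hQ i q hq), add_zero]
    exact Submodule.projectionOnto_apply_left h ⟨G.e i p, hP i p hp⟩
  rw [e1, e2]
  rfl

end compl

/-- the set of idempotent endomorphisms factoring through graded indecomposables -/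
def DecSet {M : Type v} [AddCommGroup M] [Module S M] (G : Gr A M) (b : ℕ) :
    AddSubgroup (Module.End S M) :=
  AddSubgroup.closure {φ | ∃ (X : GM.{u, v} A) (π : M →ₗ[S] X.X) (ι : X.X →ₗ[S] M),
    Module.length S X.X ≤ b ∧ Hg G X.G 0 π ∧ Hg X.G G 0 ι ∧ π ∘ₗ ι = LinearMap.id ∧ φ = ι ∘ₗ π}

lemma decSet_map {M : Type v} [AddCommGroup M] [Module S M] {G : Gr A M} {b : ℕ}
    {N : Type v} [AddCommGroup N] [Module S N] {G' : Gr A N} (π : M →ₗ[S] N) (ι : N →ₗ[S] M)
    (h1 : Hg G G' 0 π) (h2 : Hg G' G 0 ι) (h3 : π ∘ₗ ι = LinearMap.id)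
    {φ : Module.End S N} (h : φ ∈ DecSet G' b) : ι ∘ₗ φ ∘ₗ π ∈ DecSet G b := by
  refine AddSubgroup.closure_induction (p := fun φ _ => ι ∘ₗ φ ∘ₗ π ∈ DecSet G b) ?_ ?_ ?_ ?_ h
  · rintro φ ⟨X, π', ι', a0, a1, a2, a3, rfl⟩
    refine AddSubgroup.subset_closure ⟨X, π' ∘ₗ π, ι ∘ₗ ι', a0, ?_, ?_, ?_, rfl⟩
    · have := h1.comp a1; rwa [add_zero] at this
    · have := a2.comp h2; rwa [add_zero] at this
    · ext x
      have e1 := LinearMap.congr_fun h3 (ι' x)
      have e2 := LinearMap.congr_fun a3 x
      simp only [LinearMap.comp_apply, LinearMap.id_apply] at e1 e2 ⊢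
      rw [e1, e2]
  · rw [LinearMap.zero_comp, LinearMap.comp_zero]; exact zero_mem _
  · intro x y _ _ hx hy
    rw [LinearMap.add_comp, LinearMap.comp_add]; exact add_mem hx hy
  · intro x _ hx
    rw [LinearMap.neg_comp, LinearMap.comp_neg]; exact neg_mem hx

theorem dec_aux (b n : ℕ) : ∀ {M : Type v} [AddCommGroup M] [Module S M] [IsArtinian S M]
    [IsNoetherian S M] (G : Gr A M), Module.length S M ≤ b → ln (⊤ : Submodule S M) ≤ n →
    (1 : Module.End S M) ∈ DecSet G b := by
  induction n with
  | zero =>
    intro M _ _ _ _ G hb hn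
    have h1 : (⊤ : Submodule S M) = ⊥ := eq_bot_of_ln (by omega)
    have : (1 : Module.End S M) = 0 := by
      ext x
      have : x ∈ (⊤ : Submodule S M) := trivial
      rw [h1, Submodule.mem_bot] at this
      simp [this]
    rw [this]; exact zero_mem _
  | succ n ih =>
    intro M _ _ _ _ G hb hn
    by_cases hi : Ind G
    · exact AddSubgroup.subset_closure ⟨⟨M, G, hi⟩, LinearMap.id, LinearMap.id, hb, Hg.id, Hg.id,
        rfl, rfl⟩
    · by_cases hnt : Nontrivial M
      · have : ∃ P Q : Submodule S M, G.Sub P ∧ G.Sub Q ∧ IsCompl P Q ∧ P ≠ ⊥ ∧ Q ≠ ⊥ := by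
          by_contra hc
          push Not at hc
          apply hi
          refine ⟨hnt, fun P Q h1 h2 h3 => ?_⟩
          by_cases hP : P = ⊥
          · left; exact hP
          · right; exact hc P Q h1 h2 h3 hP
        obtain ⟨P, Q, hP, hQ, hc, hP0, hQ0⟩ := this
        have hb' : ∀ P : Submodule S M, Module.length S P ≤ b := fun P =>
          (Module.length_le_of_injective P.subtype P.injective_subtype).trans hb
        have key : ∀ P Q : Submodule S M, (hP : G.Sub P) → IsCompl P Q → Q ≠ ⊥ →
            (1 : Module.End S P) ∈ DecSet (G.sub P hP) b := by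
          intro P Q hP hc hQ0
          apply ih (G.sub P hP) (hb' P)
          have hlt : P < ⊤ := by
            rw [lt_top_iff_ne_top]
            rintro rfl
            exact hQ0 (top_disjoint.1 hc.disjoint)
          have h1 := ln_lt hlt
          have h2 : ln (⊤ : Submodule S P) = ln P := by
            unfold ln; rw [Module.length_top]
          omega
        have h1 := decSet_map _ _ (proj_hg G hP hQ hc) (G.subtype_hg hP) (by
          ext x; simp) (key P Q hP hc hQ0)
        have h2 := decSet_map _ _ (proj_hg G hQ hP hc.symm) (G.subtype_hg hQ) (by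
          ext x; simp) (key Q P hQ hc.symm hP0)
        have h3 := add_mem h1 h2
        convert h3 using 1
        ext x
        obtain ⟨p, hp, q, hq, rfl⟩ := Submodule.mem_sup.1
          (show x ∈ P ⊔ Q by rw [hc.sup_eq_top]; trivial)
        have e1 : P.projectionOnto Q hc (p + q) = ⟨p, hp⟩ := by
          rw [map_add, (Submodule.projectionOnto_apply_eq_zero_iff hc).2 hq, add_zero]
          exact Submodule.projectionOnto_apply_left hc ⟨p, hp⟩
        have e2 : Q.projectionOnto P hc.symm (p + q) = ⟨q, hq⟩ := by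
          rw [map_add, (Submodule.projectionOnto_apply_eq_zero_iff hc.symm).2 hp, zero_add]
          exact Submodule.projectionOnto_apply_left hc.symm ⟨q, hq⟩
        simp only [LinearMap.add_apply, LinearMap.comp_apply, Module.End.one_apply, e1, e2,
          Submodule.subtype_apply]
      · rw [not_nontrivial_iff_subsingleton] at hnt
        have : (1 : Module.End S M) = 0 := by
          ext x; exact Subsingleton.elim _ _
        rw [this]; exact zero_mem _

theorem dec {M : Type v} [AddCommGroup M] [Module S M] [IsArtinian S M]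
    [IsNoetherian S M] (G : Gr A M) {b : ℕ} (hb : Module.length S M ≤ b) :
    (1 : Module.End S M) ∈ DecSet G b := dec_aux b _ G hb le_rfl

/-- the trivial grading of a ring -/
def tA (S : Type u) [Ring S] : ℤ → AddSubgroup S := fun i => if i = 0 then ⊤ else ⊥

/-- the trivial grading of a module -/
def tG (S : Type u) [Ring S] (M : Type v) [AddCommGroup M] [Module S M] : Gr (tA S) M where
  e i := if i = 0 then AddMonoidHom.id M else 0
  ee i m := by split_ifs <;> simp
  ne i j m h := by
    split_ifs with h1 h2
    · exact absurd (h1.trans h2.symm) h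
    · simp
    · simp
    · simp
  fin m := ⟨{0}, by simp⟩
  smul i j a m ha := by
    unfold tA at ha
    split_ifs at ha with h
    · subst h
      simp only [zero_add]
      split_ifs <;> simp
    · rw [AddSubgroup.mem_bot] at ha
      subst ha
      simp

lemma tG_bdd (M : Type v) [AddCommGroup M] [Module S M] : (tG S M).Bdd 0 := by
  intro i m hi
  have : i ≠ 0 := by rintro rfl; simp at hi
  simp [tG, this]

def tR (S : Type u) [Ring S] : GRing (tA S) where
  gr := tG S S
  mem i a := by
    unfold tA tG
    by_cases h : i = 0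
    · simp [h]
    · simp [h]
  self i a ha := by
    unfold tA at ha
    unfold tG
    by_cases h : i = 0
    · simp [h]
    · simp only [h, if_false, AddSubgroup.mem_bot] at ha
      simp [ha]
  one := by simp [tA]

lemma tG_hg {M : Type v} [AddCommGroup M] [Module S M] {N : Type w} [AddCommGroup N] [Module S N]
    (φ : M →ₗ[S] N) : Hg (tG S M) (tG S N) 0 φ := by
  intro i x
  rw [add_zero]
  by_cases h : i = 0
  · simp [tG, h]
  · simp [tG, h]

/-- ungraded indecomposable -/
def UInd (S : Type u) [Ring S] (M : Type v) [AddCommGroup M] [Module S M] : Prop :=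
  Nontrivial M ∧ ∀ P Q : Submodule S M, IsCompl P Q → P = ⊥ ∨ Q = ⊥

theorem UInd.localEnd {M : Type v} [AddCommGroup M] [Module S M] [IsArtinian S M]
    [IsNoetherian S M] (h : UInd S M) : LocalEnd S M :=
  GM.localEnd (X := (⟨M, tG S M, h.1, fun P Q _ _ h' => h.2 P Q h'⟩ : GM (tA S))) (tR S)
    (tG_bdd M)

/-- every nonzero module of finite length has an indecomposable direct summand -/
theorem exists_uind {M : Type v} [AddCommGroup M] [Module S M] [IsArtinian S M]
    [IsNoetherian S M] [Nontrivial M] : ∃ (X : GM.{u, v} (tA S)) (π : M →ₗ[S] X.X)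
      (ι : X.X →ₗ[S] M), π ∘ₗ ι = LinearMap.id ∧ UInd S X.X := by
  have h := dec (tG S M) (b := (Module.length S M).toNat) (by
    rw [ENat.natCast_toNat Module.length_ne_top])
  by_contra hc
  have h2 : DecSet (tG S M) (Module.length S M).toNat ≤ ⊥ := by
    unfold DecSet
    rw [AddSubgroup.closure_le]
    rintro φ ⟨X, π, ι, a0, a1, a2, a3, rfl⟩
    exfalso
    apply hc
    refine ⟨X, π, ι, a3, X.ind.1, fun P Q hPQ => ?_⟩
    have hs : ∀ P : Submodule S X.X, X.G.Sub P := by
      intro P i x hx
      have h0 : ∀ i x, i ≠ 0 → X.G.e i x = 0 := by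
        intro i x hi
        have := X.G.smul' (i := 0) (l := i) (a := (1 : S)) (by simp [tA]) x
        have h1 := X.G.smul i (0 : ℤ) (0 : S) x (zero_mem _)
        have : π (ι (X.G.e i x)) = 0 := by
          have e := a2 i x
          rw [add_zero] at e
          rw [← e]
          simp [tG, hi]
        have e := LinearMap.congr_fun a3 (X.G.e i x)
        rw [LinearMap.comp_apply, this] at e
        exact e.symm
      by_cases hi : i = 0
      · subst hi
        have : X.G.e 0 x = x := by
          apply X.G.ext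
          intro j
          rw [X.G.e_e]
          by_cases hj : j = 0
          · simp [hj]
          · rw [if_neg hj, h0 j x hj]
        rw [this]; exact hx
      · rw [h0 i x hi]; exact zero_mem _
    exact X.ind.2 P Q (hs P) (hs Q) hPQ
  have h3 := h2 h
  rw [AddSubgroup.mem_bot] at h3
  obtain ⟨x, hx⟩ := exists_ne (0 : M)
  apply hx
  have := LinearMap.congr_fun h3 x
  exact this

end Pool.Agent.V1166.GA
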