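import Pool.Agent.V1166.GA.Dec

namespace Pool.Agent.V1166.GA

universe u v w

variable {S : Type u} [Ring S] {A : ℤ → AddSubgroup S}

section shift

variable {M : Type v} [AddCommGroup M] [Module S M] {G : Gr A M}

/-- support -/
lemma exists_support (G : Gr A M) (x : M) : ∃ s : Finset ℤ, ∀ i, i ∈ s ↔ G.e i x ≠ 0 := by
  classical
  obtain ⟨s, hs⟩ := G.fin x
  refine ⟨s.filter (fun i => G.e i x ≠ 0), fun i => ?_⟩
  rw [Finset.mem_filter]
  refine ⟨fun h => h.2, fun h => ⟨?_, h⟩⟩
  by_contra hi
  exact h (G.zero_of_notin hs hi)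

/-- for an injective homogeneous `T` of nonzero degree, `y - T y` is never homogeneous -/
lemma no_homog {d δ : ℤ} (hδ : δ ≠ 0) {T : Module.End S M} (hT : Hg G G δ T)
    (hinj : Function.Injective T) {y : M} (hy : y ≠ 0)
    (h : ∀ l, l ≠ d → G.e l (y - T y) = 0) : False := by
  obtain ⟨s, hs⟩ := exists_support G y
  have hne : s.Nonempty := by
    by_contra hc
    rw [Finset.not_nonempty_iff_eq_empty] at hc
    apply hy
    apply G.ext
    intro i
    rw [map_zero]
    by_contra hi
    have := (hs i).2 hi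
    rw [hc] at this
    exact absurd this (Finset.notMem_empty _)
  have key : ∀ l, l ≠ d → (l ∈ s ↔ l - δ ∈ s) := by
    intro l hl
    have h1 := h l hl
    rw [map_sub, sub_eq_zero, hT.e'] at h1
    rw [hs, hs, h1]
    constructor
    · intro h2 h3
      apply h2
      rw [h3, map_zero]
    · intro h2 h3
      apply h2
      apply hinj
      rw [h3, map_zero]
  have ht := s.max'_mem hne
  have hb := s.min'_mem hne
  set t := s.max' hne
  set b := s.min' hne
  have hmax : ∀ x ∈ s, x ≤ t := fun x hx => s.le_max' x hx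
  have hmin : ∀ x ∈ s, b ≤ x := fun x hx => s.min'_le x hx
  have hbt := hmin t ht
  rcases lt_or_gt_of_ne hδ with h0 | h0
  · -- δ < 0
    have h1 : t = d := by
      by_contra hc
      have := (key t hc).1 ht
      have := hmax _ this
      omega
    have h2 : b + δ = d := by
      by_contra hc
      have h3 := (key (b + δ) hc).2 (by rw [add_sub_cancel_right]; exact hb)
      have := hmin _ h3
      omega
    omega
  · have h1 : b = d := by
      by_contra hc
      have := (key b hc).1 hb
      have := hmin _ this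
      omega
    have h2 : t + δ = d := by
      by_contra hc
      have h3 := (key (t + δ) hc).2 (by rw [add_sub_cancel_right]; exact ht)
      have := hmax _ h3
      omega
    omega

lemma no_shift [IsArtinian S M] (hM : Nontrivial M) {δ : ℤ} (hδ : δ ≠ 0) {T : Module.End S M}
    (hT : Hg G G δ T) (hinj : Function.Injective T) : False := by
  have h1 : Function.Injective ((1 : Module.End S M) - T) := by
    rw [injective_iff_map_eq_zero]
    intro y hy
    by_contra hy0
    refine no_homog (d := 0) hδ hT hinj hy0 fun l _ => ?_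
    have : y - T y = 0 := hy
    rw [this, map_zero]
  have h2 := IsArtinian.surjective_of_injective_endomorphism _ h1
  obtain ⟨x, hx⟩ := exists_ne (0 : M)
  have : ∃ i, G.e i x ≠ 0 := by
    by_contra hc
    push Not at hc
    apply hx
    apply G.ext
    intro i
    rw [hc i, map_zero]
  obtain ⟨i, hi⟩ := this
  obtain ⟨y, hy⟩ := h2 (G.e i x)
  have hy' : y - T y = G.e i x := hy
  refine no_homog (d := i) hδ hT hinj (y := y) ?_ fun l hl => ?_
  · rintro rfl
    apply hi
    rw [← hy', map_zero, sub_zero]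
  · rw [hy']
    exact G.ne l i x hl

end shift

section simple

variable {M : Type v} [AddCommGroup M] [Module S M]

/-- finite support for graded simple modules -/
theorem bdd_of_simple (H : GRing A) [IsArtinianRing S] [IsArtinian S M] (G : Gr A M)
    (hM : Nontrivial M) (hs : ∀ P : Submodule S M, G.Sub P → P = ⊥ ∨ P = ⊤) :
    ∃ L, G.Bdd L := by
  classical
  by_contra hc
  unfold Gr.Bdd at hc
  push Not at hc
  -- a sequence of degrees
  have step : ∀ n : ℕ, ∃ i : ℤ, ∃ m : M, (n : ℤ) < |i| ∧ G.e i m ≠ 0 := fun n => by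
    obtain ⟨i, m, h1, h2⟩ := hc n
    exact ⟨i, m, h1, h2⟩
  choose deg mm hdeg hmm using step
  -- indices n_k strictly increasing absolute degrees
  obtain ⟨idx, idx_succ⟩ : ∃ idx : ℕ → ℕ, ∀ k, idx (k + 1) = (deg (idx k)).natAbs :=
    ⟨fun k => Nat.rec 0 (fun _ p => (deg p).natAbs) k, fun k => rfl⟩
  let D : ℕ → ℤ := fun k => deg (idx k)
  have hD : ∀ k, (D k).natAbs < (D (k + 1)).natAbs := by
    intro k
    have := hdeg (idx (k + 1))
    show (deg (idx k)).natAbs < (deg (idx (k + 1))).natAbs
    rw [Int.abs_eq_natAbs] at this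
    have h2 := idx_succ k
    omega
  have hDmono : StrictMono fun k => (D k).natAbs := strictMono_nat_of_lt_succ hD
  have hDinj : ∀ a b, a ≠ b → D a ≠ D b := by
    intro a b hab h
    apply hab
    exact hDmono.injective (by simp only [h])
  let x : ℕ → M := fun k => G.e (D k) (mm (idx k))
  have hx0 : ∀ k, x k ≠ 0 := fun k => hmm (idx k)
  have hxe : ∀ k, G.e (D k) (x k) = x k := fun k => G.ee _ _
  have hxhom : ∀ k l a, G.e l (a • x k) = H.gr.e (l - D k) a • x k := by
    intro k l a
    obtain ⟨s, hs⟩ := H.gr.fin a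
    have e1 : G.e l (a • x k) = ∑ i ∈ s, G.e l (H.gr.e i a • x k) := by
      conv_lhs => rw [hs, Finset.sum_smul, map_sum]
    have e2 : ∀ i, G.e l (H.gr.e i a • x k) = if i = l - D k then H.gr.e i a • x k else 0 := by
      intro i
      rw [G.smul' (H.mem i a), show x k = G.e (D k) (mm (idx k)) from rfl, G.e_e]
      by_cases h : i = l - D k
      · rw [if_pos (by omega), if_pos h]
      · rw [if_neg (by omega), if_neg h, smul_zero]
    rw [e1, Finset.sum_congr rfl fun i _ => e2 i, Finset.sum_ite_eq']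
    split_ifs with h
    · rfl
    · rw [H.gr.zero_of_notin hs h, zero_smul]
  -- annihilator chain
  let I : ℕ → Submodule S S := fun n => ⨅ k ∈ Finset.range n, LinearMap.ker
    (LinearMap.toSpanSingleton S M (x k))
  have hI : ∀ n a, a ∈ I n ↔ ∀ k < n, a • x k = 0 := by
    intro n a
    simp only [I, Submodule.mem_iInf, Finset.mem_range, LinearMap.mem_ker,
      LinearMap.toSpanSingleton_apply]
  have hanti : Antitone I := by
    intro a b hab y hy
    rw [hI] at hy ⊢
    exact fun k hk => hy k (lt_of_lt_of_le hk hab)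
  obtain ⟨n0, hn0⟩ := IsArtinian.monotone_stabilizes (R := S) (M := S) ⟨fun n => OrderDual.toDual (I n), hanti⟩
  have hex : ∃ n, ∃ m, n ≤ m ∧ ∀ a ∈ I n, a • x m = 0 := by
    refine ⟨n0, n0, le_rfl, fun a ha => ?_⟩
    have h1 : I n0 = I (n0 + 1) := hn0 (n0 + 1) (Nat.le_succ _)
    rw [h1, hI] at ha
    exact ha n0 (Nat.lt_succ_self _)
  have hmin : ∀ p, p < Nat.find hex → ¬ ∃ m, p ≤ m ∧ ∀ a ∈ I p, a • x m = 0 :=
    fun p hp => Nat.find_min hex hp
  obtain ⟨m, hnm, ham⟩ := Nat.find_spec hex
  set n := Nat.find hex with hn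
  have hn1 : n ≠ 0 := by
    intro h0
    rw [h0] at ham
    apply hx0 m
    have := ham 1 (by rw [hI]; intro k hk; omega)
    rwa [one_smul] at this
  obtain ⟨p, hp⟩ := Nat.exists_eq_succ_of_ne_zero hn1
  have hpn : p < n := by omega
  have hmin' := hmin p hpn
  push Not at hmin'
  -- J = I p, maps to M via x p
  have hIgr : ∀ i a, a ∈ I p → H.gr.e i a ∈ I p := by
    intro i a ha
    rw [hI] at ha ⊢
    intro k hk
    have := hxhom k (i + D k) a
    rw [add_sub_cancel_right, ha k hk, map_zero] at this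
    exact this.symm
  have himg : (I p).map (LinearMap.toSpanSingleton S M (x p)) = ⊤ := by
    rcases hs ((I p).map (LinearMap.toSpanSingleton S M (x p))) (by
      rintro i _ ⟨a, ha, rfl⟩
      rw [LinearMap.toSpanSingleton_apply, hxhom]
      exact ⟨_, hIgr _ _ ha, by rw [LinearMap.toSpanSingleton_apply]⟩) with h1 | h1
    · exfalso
      obtain ⟨a, ha, ha'⟩ := hmin' p le_rfl
      apply ha'
      have : a • x p ∈ (I p).map (LinearMap.toSpanSingleton S M (x p)) :=
        ⟨a, ha, by rw [LinearMap.toSpanSingleton_apply]⟩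
      rw [h1, Submodule.mem_bot] at this
      exact this
    · exact h1
  -- kernel of first is killed by x m
  have hker : ∀ a ∈ I p, a • x p = 0 → a • x m = 0 := by
    intro a ha h
    apply ham
    rw [hI] at ha ⊢
    intro k hk
    rcases Nat.lt_succ_iff_lt_or_eq.1 (hp ▸ hk) with h1 | h1
    · exact ha k h1
    · rw [h1]; exact h
  let F : I p →ₗ[S] M := (LinearMap.toSpanSingleton S M (x p)).domRestrict (I p)
  let F' : I p →ₗ[S] M := (LinearMap.toSpanSingleton S M (x m)).domRestrict (I p)
  have hF : Function.Surjective F := by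
    intro y
    have : y ∈ (I p).map (LinearMap.toSpanSingleton S M (x p)) := by rw [himg]; trivial
    obtain ⟨a, ha, h⟩ := this
    exact ⟨⟨a, ha⟩, h⟩
  have hkF : LinearMap.ker F ≤ LinearMap.ker F' := by
    intro a ha
    exact hker a a.2 ha
  let T : Module.End S M := (LinearMap.ker F).liftQ F' hkF ∘ₗ
    (F.quotKerEquivOfSurjective hF).symm.toLinearMap
  have hT : ∀ a : I p, T (F a) = F' a := by
    intro a
    show ((LinearMap.ker F).liftQ F' hkF) ((F.quotKerEquivOfSurjective hF).symm (F a)) = _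
    have : (F.quotKerEquivOfSurjective hF).symm (F a) = Submodule.Quotient.mk a := by
      rw [LinearEquiv.symm_apply_eq]
      rfl
    rw [this]
    rfl
  have hThg : Hg G G (D m - D p) T := by
    intro i y
    obtain ⟨a, rfl⟩ := hF y
    rw [hT]
    have e1 : G.e i (F a) = F ⟨H.gr.e (i - D p) a, hIgr _ _ a.2⟩ := hxhom p i a
    have e2 : G.e (i + (D m - D p)) (F' a) = H.gr.e (i + (D m - D p) - D m) (a : S) • x m :=
      hxhom m _ a
    rw [e1, hT, e2]
    show _ = H.gr.e (i - D p) (a : S) • x m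
    congr 2
    ring_nf
  have hTinj : Function.Injective T := by
    rcases hs _ hThg.ker with h1 | h1
    · exact LinearMap.ker_eq_bot.1 h1
    · exfalso
      obtain ⟨a, ha, ha'⟩ := hmin' m (by omega)
      apply ha'
      have h2 : F ⟨a, ha⟩ ∈ LinearMap.ker T := by rw [h1]; trivial
      rw [LinearMap.mem_ker, hT] at h2
      exact h2
  refine no_shift hM (δ := D m - D p) ?_ hThg hTinj
  rw [sub_ne_zero]
  exact hDinj _ _ (by omega)

/-- finite support for graded modules of finite length -/
theorem exists_bdd (H : GRing A) [IsArtinianRing S] [IsArtinian S M] [IsNoetherian S M]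
    (G : Gr A M) : ∃ L, G.Bdd L := by
  let Q : Set (Submodule S M) := {P | G.Sub P ∧ ∃ L : ℕ, ∀ i, (L : ℤ) < |i| → ∀ m ∈ P, G.e i m = 0}
  have hQ : Q.Nonempty := ⟨⊥, G.sub_bot, 0, fun i _ m hm => by
    rw [(Submodule.mem_bot S).1 hm, map_zero]⟩
  obtain ⟨P, hPmem, hmax⟩ := WellFounded.has_min
    (inferInstance : WellFoundedGT (Submodule S M)).wf Q hQ
  obtain ⟨hP, L, hL⟩ := hPmem
  by_cases hPt : P = ⊤
  · refine ⟨L, fun i m hi => hL i hi m ?_⟩
    rw [hPt]; trivial
  exfalso
  let Q' : Set (Submodule S M) := {P' | G.Sub P' ∧ P < P'}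
  have hQ' : Q'.Nonempty := ⟨⊤, G.sub_top, lt_top_iff_ne_top.2 hPt⟩
  obtain ⟨P', hP'mem, hmin⟩ := WellFounded.has_min
    (inferInstance : WellFoundedLT (Submodule S M)).wf Q' hQ'
  obtain ⟨hP', hPP'⟩ := hP'mem
  -- the quotient P'/P
  let G1 := G.sub P' hP'
  let P1 : Submodule S P' := P.comap P'.subtype
  have hP1 : G1.Sub P1 := (G.subtype_hg hP').comap_sub hP
  let G2 := G1.quot P1 hP1
  have hnt : Nontrivial (P' ⧸ P1) := by
    rw [Submodule.Quotient.nontrivial_iff]
    intro h
    apply hPP'.not_ge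
    intro y hy
    have : (⟨y, hy⟩ : P') ∈ P1 := by rw [h]; trivial
    exact this
  have hsim : ∀ R : Submodule S (P' ⧸ P1), G2.Sub R → R = ⊥ ∨ R = ⊤ := by
    intro R hR
    -- pull back
    let R1 : Submodule S P' := R.comap P1.mkQ
    have hR1 : G1.Sub R1 := by
      intro i z hz
      exact hR i _ hz
    let R2 : Submodule S M := R1.map P'.subtype
    have hR2 : G.Sub R2 := (G.subtype_hg hP').image_sub hR1
    have hPR2 : P ≤ R2 := by
      intro y hy
      refine ⟨⟨y, hPP'.le hy⟩, ?_, rfl⟩
      show P1.mkQ _ ∈ R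
      have : P1.mkQ (⟨y, hPP'.le hy⟩ : P') = 0 := by
        rw [Submodule.mkQ_apply, Submodule.Quotient.mk_eq_zero]
        exact hy
      rw [this]; exact zero_mem _
    have hR2P' : R2 ≤ P' := by
      rintro _ ⟨z, _, rfl⟩; exact z.2
    rcases hPR2.lt_or_eq with h1 | h1
    · right
      have h2 : R2 = P' := by
        by_contra hne
        exact hmin R2 ⟨hR2, h1⟩ (lt_of_le_of_ne hR2P' hne)
      rw [eq_top_iff]
      intro z _
      obtain ⟨z, rfl⟩ := P1.mkQ_surjective z
      have : (z : M) ∈ R2 := by rw [h2]; exact z.2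
      obtain ⟨z', hz', h3⟩ := this
      have : z' = z := Subtype.ext h3
      rw [← this]
      exact hz'
    · left
      rw [eq_bot_iff]
      intro z hz
      obtain ⟨z, rfl⟩ := P1.mkQ_surjective z
      have : (z : M) ∈ R2 := ⟨z, hz, rfl⟩
      rw [← h1] at this
      rw [Submodule.mem_bot, Submodule.mkQ_apply, Submodule.Quotient.mk_eq_zero]
      exact this
  obtain ⟨L', hL'⟩ := bdd_of_simple H G2 hnt hsim
  refine hmax P' ⟨hP', max L L', fun i hi m hm => ?_⟩ hPP'
  have h1 := hL' i (P1.mkQ ⟨m, hm⟩) (by push_cast at hi; omega)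
  have h2 : G.e i m ∈ P := by
    have : P1.mkQ (G1.e i ⟨m, hm⟩) = 0 := h1
    rw [Submodule.mkQ_apply, Submodule.Quotient.mk_eq_zero] at this
    exact this
  have := hL i (by push_cast at hi; omega) _ h2
  rwa [G.ee] at this

end simple

end Pool.Agent.V1166.GA
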