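import Pool.Agent.V1166.GA.Basic

namespace Pool.Agent.V1166.GA

universe u v w

variable {S : Type u} [Ring S] {A : ℤ → AddSubgroup S}

/-- length of a submodule as a natural number -/
noncomputable def ln {M : Type v} [AddCommGroup M] [Module S M] (P : Submodule S M) : ℕ :=
  (Module.length S P).toNat

section ln

variable {M : Type v} [AddCommGroup M] [Module S M] [IsArtinian S M] [IsNoetherian S M]
  {N : Type w} [AddCommGroup N] [Module S N] [IsArtinian S N] [IsNoetherian S N]

lemma ln_coe (P : Submodule S M) : ((ln P : ℕ) : ℕ∞) = Module.length S P :=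
  ENat.natCast_toNat (Module.length_ne_top (R := S) (M := P))

lemma ln_lt {P Q : Submodule S M} (h : P < Q) : ln P < ln Q := by
  have := Submodule.height_strictMono h
  rw [← Module.length_submodule, ← Module.length_submodule, ← ln_coe, ← ln_coe] at this
  exact_mod_cast this

lemma ln_le {P Q : Submodule S M} (h : P ≤ Q) : ln P ≤ ln Q := by
  rcases h.lt_or_eq with h | h
  · exact (ln_lt h).le
  · rw [h]

lemma eq_of_ln {P Q : Submodule S M} (h : P ≤ Q) (h' : ln Q ≤ ln P) : P = Q := by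
  rcases h.lt_or_eq with h1 | h1
  · have := ln_lt h1; omega
  · exact h1

lemma ln_bot : ln (⊥ : Submodule S M) = 0 := by
  unfold ln
  rw [Module.length_eq_zero]
  rfl

lemma eq_bot_of_ln {P : Submodule S M} (h : ln P = 0) : P = ⊥ :=
  (eq_of_ln bot_le (by rw [h]; exact Nat.zero_le _)).symm

lemma ln_map (φ : M →ₗ[S] N) (P : Submodule S M) :
    ln P = ln (P ⊓ LinearMap.ker φ) + ln (P.map φ) := by
  have := Module.length_eq_add_of_exact (R := S)
    (Submodule.inclusion (inf_le_left : P ⊓ LinearMap.ker φ ≤ P)) (φ.submoduleMap P)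
    (Submodule.inclusion_injective _) (φ.submoduleMap_surjective P) (by
      intro x
      constructor
      · intro hx
        have hx' : φ (x : M) = 0 := congrArg Subtype.val hx
        exact ⟨⟨x, x.2, hx'⟩, rfl⟩
      · rintro ⟨y, rfl⟩
        ext
        exact y.2.2)
  rw [← ln_coe, ← ln_coe, ← ln_coe] at this
  exact_mod_cast this

lemma ln_top_le {b : ℕ} (h : Module.length S M ≤ b) : ln (⊤ : Submodule S M) ≤ b := by
  have : ((ln (⊤ : Submodule S M) : ℕ) : ℕ∞) ≤ b := by
    rw [ln_coe, Module.length_top]; exact h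
  exact_mod_cast this

end ln

/-- graded indecomposable -/
def Ind {M : Type v} [AddCommGroup M] [Module S M] (G : Gr A M) : Prop :=
  Nontrivial M ∧ ∀ P Q : Submodule S M, G.Sub P → G.Sub Q → IsCompl P Q → P = ⊥ ∨ Q = ⊥

/-- bundled graded indecomposable modules of finite length -/
structure GM (A : ℤ → AddSubgroup S) where
  X : Type v
  [acg : AddCommGroup X]
  [mod : Module S X]
  [art : IsArtinian S X]
  [noe : IsNoetherian S X]
  G : Gr A X
  ind : Ind G

attribute [instance] GM.acg GM.mod GM.art GM.noe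

/-- compositions of `n` homogeneous nonisomorphisms of graded indecomposables of length at
most `b` -/
inductive Ch (b : ℕ) : ℕ → (M N : GM.{u, v} A) → (M.X →ₗ[S] N.X) → Prop
  | nil (M : GM.{u, v} A) (h : Module.length S M.X ≤ b) : Ch b 0 M M LinearMap.id
  | cons {n : ℕ} {M N P : GM.{u, v} A} {φ : M.X →ₗ[S] N.X} (ψ : N.X →ₗ[S] P.X) (d : ℤ)
      (h1 : Ch b n M N φ) (h2 : Hg N.G P.G d ψ) (h3 : ¬ Function.Bijective ψ)
      (h4 : Module.length S P.X ≤ b) : Ch b (n + 1) M P (ψ ∘ₗ φ)

lemma Ch.src {b n : ℕ} {M N : GM.{u, v} A} {φ : M.X →ₗ[S] N.X} (h : Ch b n M N φ) :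
    Module.length S M.X ≤ b := by
  induction h with
  | nil M h => exact h
  | cons ψ d h1 h2 h3 h4 ih => exact ih

lemma Ch.tgt {b n : ℕ} {M N : GM.{u, v} A} {φ : M.X →ₗ[S] N.X} (h : Ch b n M N φ) :
    Module.length S N.X ≤ b := by
  cases h with
  | nil _ h => exact h
  | cons ψ d h1 h2 h3 h4 => exact h4

lemma Ch.hg {b n : ℕ} {M N : GM.{u, v} A} {φ : M.X →ₗ[S] N.X} (h : Ch b n M N φ) :
    ∃ d, Hg M.G N.G d φ := by
  induction h with
  | nil M h => exact ⟨0, Hg.id⟩
  | cons ψ d h1 h2 h3 h4 ih =>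
    obtain ⟨d', h'⟩ := ih
    exact ⟨d' + d, h'.comp h2⟩

lemma Ch.split {b a c : ℕ} {M P : GM.{u, v} A} {φ : M.X →ₗ[S] P.X} (h : Ch b (a + c) M P φ) :
    ∃ (N : GM.{u, v} A) (φ1 : M.X →ₗ[S] N.X) (φ2 : N.X →ₗ[S] P.X),
      Ch b a M N φ1 ∧ Ch b c N P φ2 ∧ φ = φ2 ∘ₗ φ1 := by
  induction c generalizing P with
  | zero => exact ⟨P, φ, LinearMap.id, h, Ch.nil P h.tgt, rfl⟩
  | succ c ih =>
    rw [← add_assoc] at h
    cases h with
    | cons ψ d h1 h2 h3 h4 =>
      obtain ⟨N, φ1, φ2, e1, e2, e3⟩ := ih h1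
      exact ⟨N, φ1, ψ ∘ₗ φ2, e1, Ch.cons ψ d e2 h2 h3 h4, by rw [e3]; rfl⟩

/-- graded Harada-Sai lemma -/
theorem haradaSai (b m : ℕ) : ∀ {M N : GM.{u, v} A} {φ : M.X →ₗ[S] N.X},
    Ch b (2 ^ m - 1) M N φ → φ = 0 ∨ ln (LinearMap.range φ) + m ≤ b := by
  induction m with
  | zero =>
    intro M N φ h
    right
    exact (ln_le le_top).trans (ln_top_le h.tgt)
  | succ m ih =>
    intro M Q φ h
    have e1 : 2 ^ (m + 1) - 1 = (2 ^ m - 1) + (1 + (2 ^ m - 1)) := by
      have := Nat.one_le_two_pow (n := m)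
      rw [pow_succ]; omega
    rw [e1] at h
    obtain ⟨N, f, r, hf, hr, rfl⟩ := h.split
    obtain ⟨P, g, k, hg, hk, rfl⟩ := hr.split
    have hg' : ∃ d, Hg N.G P.G d g := hg.hg
    have hgb : ¬ Function.Bijective g := by
      cases hg with
      | cons ψ d h1 h2 h3 h4 =>
        cases h1 with
        | nil _ _ => simpa using h3
    by_cases h0 : (k ∘ₗ g) ∘ₗ f = 0
    · left; exact h0
    right
    have hf0 : f ≠ 0 := by rintro rfl; exact h0 (by ext; simp)
    have hk0 : k ≠ 0 := by rintro rfl; exact h0 (by ext; simp)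
    have a1 : ln (LinearMap.range f) + m ≤ b := (ih hf).resolve_left hf0
    have a2 : ln (LinearMap.range k) + m ≤ b := (ih hk).resolve_left hk0
    by_contra hc
    have hc' : b ≤ ln (LinearMap.range ((k ∘ₗ g) ∘ₗ f)) + m := by omega
    obtain ⟨df, hdf⟩ := hf.hg
    obtain ⟨dg, hdg⟩ := hg'
    obtain ⟨dk, hdk⟩ := hk.hg
    have hmap : LinearMap.range ((k ∘ₗ g) ∘ₗ f) = (LinearMap.range f).map (k ∘ₗ g) :=
      LinearMap.range_comp _ _
    have hl1 := ln_map (k ∘ₗ g) (LinearMap.range f)
    rw [← hmap] at hl1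
    have hinf : LinearMap.range f ⊓ LinearMap.ker (k ∘ₗ g) = ⊥ := by
      apply eq_bot_of_ln
      omega
    have hle : LinearMap.range ((k ∘ₗ g) ∘ₗ f) ≤ LinearMap.range k := by
      rintro _ ⟨x, rfl⟩; exact ⟨g (f x), rfl⟩
    have heq : LinearMap.range ((k ∘ₗ g) ∘ₗ f) = LinearMap.range k :=
      eq_of_ln hle (by omega)
    have hsup : LinearMap.range f ⊔ LinearMap.ker (k ∘ₗ g) = ⊤ := by
      rw [eq_top_iff]
      intro x _
      have : k (g x) ∈ LinearMap.range ((k ∘ₗ g) ∘ₗ f) := by rw [heq]; exact ⟨g x, rfl⟩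
      obtain ⟨y, hy⟩ := this
      have hx : x = f y + (x - f y) := by abel
      rw [hx]
      refine Submodule.add_mem_sup ⟨y, rfl⟩ ?_
      rw [LinearMap.mem_ker, map_sub, sub_eq_zero]
      exact hy.symm
    have hker : LinearMap.ker (k ∘ₗ g) = ⊥ := by
      rcases N.ind.2 _ _ hdf.range (hdg.comp hdk).ker ⟨disjoint_iff.2 hinf, codisjoint_iff.2 hsup⟩
        with h1 | h1
      · exact absurd (LinearMap.range_eq_bot.1 h1) hf0
      · exact h1
    have ginj : Function.Injective g := by
      rw [← LinearMap.ker_eq_bot, eq_bot_iff, ← hker]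
      intro x hx
      rw [LinearMap.mem_ker] at hx ⊢
      rw [LinearMap.comp_apply, hx, map_zero]
    have hinf2 : LinearMap.range (g ∘ₗ f) ⊓ LinearMap.ker k = ⊥ := by
      rw [eq_bot_iff]
      rintro _ ⟨⟨y, rfl⟩, hz⟩
      have : f y ∈ LinearMap.range f ⊓ LinearMap.ker (k ∘ₗ g) := ⟨⟨y, rfl⟩, hz⟩
      rw [hinf, Submodule.mem_bot] at this
      rw [LinearMap.comp_apply, this, map_zero]
      exact Submodule.zero_mem _
    have hsup2 : LinearMap.range (g ∘ₗ f) ⊔ LinearMap.ker k = ⊤ := by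
      rw [eq_top_iff]
      intro x _
      have : k x ∈ LinearMap.range ((k ∘ₗ g) ∘ₗ f) := by rw [heq]; exact ⟨x, rfl⟩
      obtain ⟨y, hy⟩ := this
      have hx : x = g (f y) + (x - g (f y)) := by abel
      rw [hx]
      refine Submodule.add_mem_sup ⟨y, rfl⟩ ?_
      rw [LinearMap.mem_ker, map_sub, sub_eq_zero]
      exact hy.symm
    have gsurj : Function.Surjective g := by
      rcases P.ind.2 _ _ (hdf.comp hdg).range hdk.ker ⟨disjoint_iff.2 hinf2, codisjoint_iff.2 hsup2⟩
        with h1 | h1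
      · exfalso
        apply h0
        rw [LinearMap.comp_assoc, LinearMap.range_eq_bot.1 h1, LinearMap.comp_zero]
      · rw [h1, sup_bot_eq] at hsup2
        intro x
        have : x ∈ LinearMap.range (g ∘ₗ f) := by rw [hsup2]; trivial
        obtain ⟨y, hy⟩ := this
        exact ⟨f y, hy⟩
    exact hgb ⟨ginj, gsurj⟩

theorem Ch.eq_zero {b : ℕ} {M N : GM.{u, v} A} {φ : M.X →ₗ[S] N.X}
    (h : Ch b (2 ^ b - 1) M N φ) : φ = 0 := by
  rcases haradaSai b b h with h | h
  · exact h
  · have : ln (LinearMap.range φ) = 0 := by omega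
    exact LinearMap.range_eq_bot.1 (eq_bot_of_ln this)

/-- the endomorphism ring is local (and the module is nonzero) -/
def LocalEnd (S : Type u) [Ring S] (M : Type v) [AddCommGroup M] [Module S M] : Prop :=
  Nontrivial M ∧ ∀ φ ψ : M →ₗ[S] M, Function.Bijective (φ + ψ : M →ₗ[S] M) →
    Function.Bijective φ ∨ Function.Bijective ψ

lemma isUnit_of_bij {M : Type v} [AddCommGroup M] [Module S M] {φ : Module.End S M} :
    Function.Bijective φ ↔ IsUnit φ := (Module.End.isUnit_iff φ).symm

section fitting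

variable {M : Type v} [AddCommGroup M] [Module S M] [IsArtinian S M] [IsNoetherian S M]
  {G : Gr A M}

lemma fitting (h : Ind G) {φ : Module.End S M} (hφ : Hg G G 0 φ) :
    Function.Bijective φ ∨ IsNilpotent φ := by
  obtain ⟨n, hn⟩ := (Filter.eventually_atTop.1 (LinearMap.eventually_isCompl_ker_pow_range_pow φ))
  have h1 := hn (n + 1) (Nat.le_succ n)
  rcases h.2 _ _ (hφ.pow (n + 1)).ker (hφ.pow (n + 1)).range h1 with h2 | h2
  · left
    apply IsArtinian.bijective_of_injective_endomorphism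
    rw [LinearMap.ker_eq_bot] at h2
    intro x y hxy
    apply h2
    rw [pow_succ, Module.End.mul_apply, Module.End.mul_apply, hxy]
  · right
    exact ⟨n + 1, LinearMap.range_eq_bot.1 h2⟩

lemma local0 (h : Ind G) {φ ψ : Module.End S M} (hφ : Hg G G 0 φ)
    (hs : φ + ψ = 1) : Function.Bijective φ ∨ Function.Bijective ψ := by
  rcases fitting h hφ with h1 | h1
  · left; exact h1
  · right
    rw [isUnit_of_bij]
    have : ψ = 1 - φ := by rw [← hs]; abel
    rw [this]
    exact h1.isUnit_one_sub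

/-- composite of nonisomorphism -/
lemma comp_not_bij {N : Type*} [AddCommGroup N] [Module S N] {G' : Gr A N}
    {P : Type*} [AddCommGroup P] [Module S P] {G'' : Gr A P}
    (hM : Nontrivial M) (hN : Ind G') {d d' : ℤ} {s : M →ₗ[S] N} {ψ : N →ₗ[S] P}
    (hs : Hg G G' d s) (hψ : Hg G' G'' d' ψ) (hb : Function.Bijective (ψ ∘ₗ s : M →ₗ[S] P)) :
    Function.Bijective s := by
  have inj : Function.Injective s := by
    intro x y hxy
    apply hb.1
    rw [LinearMap.comp_apply, LinearMap.comp_apply, hxy]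
  refine ⟨inj, ?_⟩
  have hinf : LinearMap.range s ⊓ LinearMap.ker ψ = ⊥ := by
    rw [eq_bot_iff]
    rintro _ ⟨⟨y, rfl⟩, hz⟩
    have : y = 0 := by
      apply hb.1
      rw [map_zero]
      exact hz
    rw [this, map_zero]
    exact Submodule.zero_mem _
  have hsup : LinearMap.range s ⊔ LinearMap.ker ψ = ⊤ := by
    rw [eq_top_iff]
    intro x _
    obtain ⟨y, hy⟩ := hb.2 (ψ x)
    have hx : x = s y + (x - s y) := by abel
    rw [hx]
    refine Submodule.add_mem_sup ⟨y, rfl⟩ ?_
    rw [LinearMap.mem_ker, map_sub, sub_eq_zero]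
    exact hy.symm
  rcases hN.2 _ _ hs.range hψ.ker ⟨disjoint_iff.2 hinf, codisjoint_iff.2 hsup⟩ with h1 | h1
  · exfalso
    obtain ⟨x, hx⟩ := exists_ne (0 : M)
    apply hx
    apply inj
    rw [LinearMap.range_eq_bot.1 h1]
    rfl
  · rw [h1, sup_bot_eq] at hsup
    exact LinearMap.range_eq_top.1 hsup

/-- homogeneous endomorphisms of nonzero degree are not isomorphisms -/
lemma not_bij_of_deg (hM : Nontrivial M) {L : ℕ} (hL : G.Bdd L) {d : ℤ} (hd : d ≠ 0)
    {φ : Module.End S M} (hφ : Hg G G d φ) : ¬ Function.Bijective φ := by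
  intro hb
  have key : ∀ n : ℕ, ∀ i x, G.e (i + n * d) ((φ ^ n) x) = (φ ^ n) (G.e i x) := by
    intro n
    induction n with
    | zero => intro i x; simp
    | succ n ih =>
      intro i x
      rw [pow_succ']
      have := hφ (i + n * d) ((φ ^ n) x)
      rw [ih] at this
      rw [Module.End.mul_apply, Module.End.mul_apply, ← this]
      congr 2
      push_cast; ring
  have hinj : ∀ n : ℕ, Function.Injective (φ ^ n) := by
    intro n
    rw [Module.End.coe_pow]
    exact hb.1.iterate n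
  obtain ⟨x, hx⟩ := exists_ne (0 : M)
  apply hx
  apply G.ext
  intro i
  rw [map_zero]
  apply hinj (2 * L + 1)
  rw [map_zero]
  by_cases hi : (L : ℤ) < |i|
  · rw [hL _ _ hi, map_zero]
  · rw [← key]
    apply hL
    push_cast
    have h1 : 1 ≤ |d| := Int.one_le_abs hd
    have h2 : |((2 * L + 1 : ℤ)) * d| = (2 * L + 1) * |d| := by
      rw [abs_mul, abs_of_nonneg (by positivity)]
    have h3 : |((2 * L + 1 : ℤ)) * d| ≤ |i + (2 * L + 1) * d| + |i| := by
      have := abs_sub (i + (2 * L + 1) * d) i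
      rwa [add_sub_cancel_left] at this
    have h4 : (2 * L + 1 : ℤ) * 1 ≤ (2 * L + 1) * |d| :=
      mul_le_mul_of_nonneg_left h1 (by positivity)
    omega

end fitting

section localend

variable (X : GM.{u, v} A)

/-- additive group generated by homogeneous nonisomorphisms -/
def J1 : AddSubgroup (Module.End S X.X) :=
  AddSubgroup.closure {φ | ∃ d, Hg X.G X.G d φ ∧ ¬ Function.Bijective φ}

def Jn (b n : ℕ) : AddSubgroup (Module.End S X.X) :=
  AddSubgroup.closure {φ | Ch b n X X φ}

lemma J1_mul {b n : ℕ} (hb : Module.length S X.X ≤ b) {φ ψ : Module.End S X.X} (h : φ ∈ J1 X)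
    (h' : ψ ∈ Jn X b n) : φ * ψ ∈ Jn X b (n + 1) := by
  refine AddSubgroup.closure_induction (p := fun φ _ => φ * ψ ∈ Jn X b (n + 1)) ?_ ?_ ?_ ?_ h
  · rintro φ ⟨d, hd, hn⟩
    refine AddSubgroup.closure_induction (p := fun ψ _ => φ * ψ ∈ Jn X b (n + 1)) ?_ ?_ ?_ ?_ h'
    · intro ψ hψ
      exact AddSubgroup.subset_closure (Ch.cons φ d hψ hd hn hb)
    · rw [mul_zero]; exact zero_mem _
    · intro x y _ _ hx hy; rw [mul_add]; exact add_mem hx hy
    · intro x _ hx; rw [mul_neg]; exact neg_mem hx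
  · rw [zero_mul]; exact zero_mem _
  · intro x y _ _ hx hy; rw [add_mul]; exact add_mem hx hy
  · intro x _ hx; rw [neg_mul]; exact neg_mem hx

lemma J1_pow {b : ℕ} (hb : Module.length S X.X ≤ b) {φ : Module.End S X.X} (h : φ ∈ J1 X) (n : ℕ) :
    φ ^ n ∈ Jn X b n := by
  induction n with
  | zero => exact AddSubgroup.subset_closure (Ch.nil X hb)
  | succ n ih => rw [pow_succ']; exact J1_mul X hb h ih

lemma J1_nilp {φ : Module.End S X.X} (h : φ ∈ J1 X) : IsNilpotent φ := by
  set b := (Module.length S X.X).toNat with hbdef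
  have hb : Module.length S X.X ≤ b := by
    rw [hbdef, ENat.natCast_toNat Module.length_ne_top]
  refine ⟨2 ^ b - 1, ?_⟩
  have h1 := J1_pow X hb h (2 ^ b - 1)
  have h2 : Jn X b (2 ^ b - 1) ≤ ⊥ := by
    unfold Jn
    rw [AddSubgroup.closure_le]
    intro ψ hψ
    exact hψ.eq_zero
  exact h2 h1

variable {X}

lemma bij_of_cmp (H : GRing A) {L : ℕ} (hL : X.G.Bdd L) {φ : Module.End S X.X}
    (h : Function.Bijective (cmp H hL X.G φ 0)) : Function.Bijective φ := by
  set u : X.X ≃ₗ[S] X.X := LinearEquiv.ofBijective _ h with hu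
  have hu1 : Hg X.G X.G 0 (u : X.X →ₗ[S] X.X) := cmp_hg H hL φ 0
  have hu2 : Hg X.G X.G 0 (u.symm : X.X →ₗ[S] X.X) := by
    have := hu1.symm; rwa [neg_zero] at this
  have hn : (u.symm : Module.End S X.X) * φ - 1 ∈ J1 X := by
    have e1 := sum_cmp H hL hL φ
    have hz : (0 : ℤ) ∈ Finset.Icc (-((L + L : ℕ) : ℤ)) (L + L : ℕ) := by
      rw [Finset.mem_Icc]; constructor <;> push_cast <;> omega
    rw [← Finset.add_sum_erase _ _ hz] at e1
    have e2 : (u.symm : Module.End S X.X) * φ - 1 =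
        ∑ d ∈ (Finset.Icc (-((L + L : ℕ) : ℤ)) (L + L : ℕ)).erase 0,
          (u.symm : Module.End S X.X) * cmp H hL X.G φ d := by
      have e3 : (u.symm : Module.End S X.X) * cmp H hL X.G φ 0 = 1 := by
        ext x
        exact u.symm_apply_apply x
      conv_lhs => rw [← e1]
      rw [mul_add, e3, add_sub_cancel_left, Finset.mul_sum]
    rw [e2]
    refine sum_mem fun d hd => AddSubgroup.subset_closure ⟨d, ?_, ?_⟩
    · have := (cmp_hg (G' := X.G) H hL φ d).comp hu2
      rw [add_zero] at this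
      exact this
    · apply not_bij_of_deg X.ind.1 hL (Finset.ne_of_mem_erase hd)
      have := (cmp_hg (G' := X.G) H hL φ d).comp hu2
      rw [add_zero] at this
      exact this
  have h3 : IsUnit ((u.symm : Module.End S X.X) * φ) := by
    have := (J1_nilp X hn).isUnit_one_add
    rwa [add_sub_cancel] at this
  have h4 : IsUnit (u : Module.End S X.X) := by
    rw [← isUnit_of_bij]; exact u.bijective
  rw [isUnit_of_bij]
  have h5 : φ = (u : Module.End S X.X) * ((u.symm : Module.End S X.X) * φ) := by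
    ext x; simp
  rw [h5]
  exact h4.mul h3

lemma cmp_add (H : GRing A) {L : ℕ} (hL : X.G.Bdd L) (φ ψ : Module.End S X.X) (d : ℤ) :
    cmp H hL X.G (φ + ψ) d = cmp H hL X.G φ d + cmp H hL X.G ψ d := by
  ext x
  apply X.G.ext
  intro l
  rw [LinearMap.add_apply, map_add, e_cmp, e_cmp, e_cmp, LinearMap.add_apply, map_add]

lemma cmp_one (H : GRing A) {L : ℕ} (hL : X.G.Bdd L) :
    cmp H hL X.G (1 : Module.End S X.X) 0 = 1 := by
  ext x
  apply X.G.ext
  intro l
  rw [e_cmp, sub_zero, Module.End.one_apply, Module.End.one_apply, X.G.ee]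

theorem GM.localEnd (H : GRing A) {L : ℕ} (hL : X.G.Bdd L) : LocalEnd S X.X := by
  refine ⟨X.ind.1, ?_⟩
  intro φ ψ hb
  set u : X.X ≃ₗ[S] X.X := LinearEquiv.ofBijective _ hb with hu
  set φ' : Module.End S X.X := (u.symm : Module.End S X.X) * φ with hφ'
  set ψ' : Module.End S X.X := (u.symm : Module.End S X.X) * ψ with hψ'
  have h1 : φ' + ψ' = 1 := by
    rw [hφ', hψ', ← mul_add]
    ext x
    exact u.symm_apply_apply x
  have hu1 : IsUnit (u.symm : Module.End S X.X) := by
    rw [← isUnit_of_bij]; exact u.symm.bijective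
  have h2 := local0 X.ind (cmp_hg (G' := X.G) H hL φ' 0)
    (ψ := cmp H hL X.G ψ' 0) (by rw [← cmp_add, h1, cmp_one])
  rcases h2 with h2 | h2
  · left
    have h3 := bij_of_cmp H hL h2
    rw [isUnit_of_bij] at h3 ⊢
    have : φ = (u : Module.End S X.X) * φ' := by ext x; simp [hφ']
    rw [this]
    exact IsUnit.mul (by rw [← isUnit_of_bij]; exact u.bijective) h3
  · right
    have h3 := bij_of_cmp H hL h2
    rw [isUnit_of_bij] at h3 ⊢
    have : ψ = (u : Module.End S X.X) * ψ' := by ext x; simp [hψ']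
    rw [this]
    exact IsUnit.mul (by rw [← isUnit_of_bij]; exact u.bijective) h3

end localend

section locallemmas

variable {M : Type v} [AddCommGroup M] [Module S M]

lemma LocalEnd.sum (h : LocalEnd S M) {ι : Type*} (s : Finset ι) (f : ι → Module.End S M)
    (hb : Function.Bijective (∑ i ∈ s, f i : Module.End S M)) :
    ∃ i ∈ s, Function.Bijective (f i) := by
  classical
  induction s using Finset.induction_on with
  | empty =>
    exfalso
    obtain ⟨x, hx⟩ := @exists_ne _ h.1 (0 : M)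
    apply hx
    apply hb.1
    simp
  | insert a s ha ih =>
    rw [Finset.sum_insert ha] at hb
    rcases h.2 _ _ hb with h1 | h1
    · exact ⟨a, Finset.mem_insert_self _ _, h1⟩
    · obtain ⟨i, hi, h2⟩ := ih h1
      exact ⟨i, Finset.mem_insert_of_mem hi, h2⟩

/-- a nonzero split mono into a module with local endomorphism ring is an isomorphism -/
lemma LocalEnd.bij_of_split (h : LocalEnd S M) {W : Type w} [AddCommGroup W] [Module S W]
    (hW : Nontrivial W) (a : W →ₗ[S] M) (b : M →ₗ[S] W)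
    (hb : Function.Bijective (b ∘ₗ a : W →ₗ[S] W)) :
    Function.Bijective a ∧ Function.Bijective b := by
  set u : W ≃ₗ[S] W := LinearEquiv.ofBijective _ hb with hu
  have hu' : ∀ x, u x = b (a x) := fun x => rfl
  set e : Module.End S M := a ∘ₗ (u.symm : W →ₗ[S] W) ∘ₗ b with he
  have he2 : ∀ x, e (e x) = e x := by
    intro x
    simp only [he, LinearMap.comp_apply, LinearEquiv.coe_coe]
    rw [← hu', u.apply_symm_apply]
  have h1 : Function.Bijective (e + (1 - e) : Module.End S M) := by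
    rw [add_sub_cancel]; exact Function.bijective_id
  have ainj : Function.Injective a := by
    intro x y hxy
    apply hb.1
    rw [LinearMap.comp_apply, LinearMap.comp_apply, hxy]
  have bsurj : Function.Surjective b := by
    intro x
    obtain ⟨y, hy⟩ := hb.2 x
    exact ⟨a y, hy⟩
  rcases h.2 _ _ h1 with h2 | h2
  · have he1 : ∀ x, e x = x := fun x => h2.1 (he2 x)
    refine ⟨⟨ainj, fun x => ⟨u.symm (b x), he1 x⟩⟩, ⟨?_, bsurj⟩⟩
    intro x y hxy
    rw [← he1 x, ← he1 y]
    simp only [he, LinearMap.comp_apply, hxy]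
  · exfalso
    have he1 : ∀ x, e x = 0 := by
      intro x
      apply h2.1
      rw [map_zero, LinearMap.sub_apply, he2, Module.End.one_apply, sub_self]
    obtain ⟨x, hx⟩ := @exists_ne _ hW (0 : W)
    apply hx
    apply hb.1
    rw [map_zero]
    have := he1 (a x)
    simp only [he, LinearMap.comp_apply, LinearEquiv.coe_coe] at this
    rw [← hu', u.symm_apply_apply] at this
    rw [LinearMap.comp_apply, this, map_zero]

end locallemmas

end Pool.Agent.V1166.GA
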