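import Pool.Agent.V1166.GA.ThmA

namespace Pool.Agent.V1166.GA

universe u v w

variable {S : Type u} [Ring S] {A : ℤ → AddSubgroup S}

/-- maps factoring through chains of depth `n` -/
def DG {Y : Type v} [AddCommGroup Y] [Module S Y] (b n : ℕ) (X : GM.{u, v} A) :
    AddSubgroup (X.X →ₗ[S] Y) :=
  AddSubgroup.closure {φ | ∃ (W : GM.{u, v} A) (χ : X.X →ₗ[S] W.X) (g : W.X →ₗ[S] Y),
    Ch b n X W χ ∧ φ = g ∘ₗ χ}

lemma comp_closure {M N Y : Type*} [AddCommGroup M] [Module S M] [AddCommGroup N] [Module S N]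
    [AddCommGroup Y] [Module S Y] {T : Set (N →ₗ[S] Y)} {P : AddSubgroup (M →ₗ[S] Y)}
    (χ : M →ₗ[S] N) (h : ∀ g ∈ T, g ∘ₗ χ ∈ P) {g : N →ₗ[S] Y} (hg : g ∈ AddSubgroup.closure T) :
    g ∘ₗ χ ∈ P := by
  refine AddSubgroup.closure_induction (p := fun g _ => g ∘ₗ χ ∈ P) h ?_ ?_ ?_ hg
  · rw [LinearMap.zero_comp]; exact zero_mem _
  · intro x y _ _ hx hy; rw [LinearMap.add_comp]; exact add_mem hx hy
  · intro x _ hx; rw [LinearMap.neg_comp]; exact neg_mem hx

lemma comp2_closure {M N M' Y : Type*} [AddCommGroup M] [Module S M] [AddCommGroup N]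
    [Module S N] [AddCommGroup Y] [Module S Y] [AddCommGroup M'] [Module S M']
    {T : Set (N →ₗ[S] M')} {P : AddSubgroup (M →ₗ[S] Y)}
    (χ : M →ₗ[S] N) (f : M' →ₗ[S] Y) (h : ∀ g ∈ T, f ∘ₗ g ∘ₗ χ ∈ P) {g : N →ₗ[S] M'}
    (hg : g ∈ AddSubgroup.closure T) : f ∘ₗ g ∘ₗ χ ∈ P := by
  refine AddSubgroup.closure_induction (p := fun g _ => f ∘ₗ g ∘ₗ χ ∈ P) h ?_ ?_ ?_ hg
  · rw [LinearMap.zero_comp, LinearMap.comp_zero]; exact zero_mem _
  · intro x y _ _ hx hy; rw [LinearMap.add_comp, LinearMap.comp_add]; exact add_mem hx hy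
  · intro x _ hx; rw [LinearMap.neg_comp, LinearMap.comp_neg]; exact neg_mem hx

/-- transport of a grading along an isomorphism -/
def Gr.trans {M : Type v} [AddCommGroup M] [Module S M] (G : Gr A M) {N : Type w}
    [AddCommGroup N] [Module S N] (f : M ≃ₗ[S] N) : Gr A N where
  e i := f.toAddEquiv.toAddMonoidHom.comp ((G.e i).comp f.symm.toAddEquiv.toAddMonoidHom)
  ee i m := by
    show f (G.e i (f.symm (f (G.e i (f.symm m))))) = f (G.e i (f.symm m))
    rw [f.symm_apply_apply, G.ee]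
  ne i j m h := by
    show f (G.e i (f.symm (f (G.e j (f.symm m))))) = 0
    rw [f.symm_apply_apply, G.ne i j _ h, map_zero]
  fin m := by
    obtain ⟨s, hs⟩ := G.fin (f.symm m)
    refine ⟨s, ?_⟩
    show m = ∑ i ∈ s, f (G.e i (f.symm m))
    rw [← map_sum, ← hs, f.apply_symm_apply]
  smul i j a m ha := by
    show f (G.e (i + j) (f.symm (a • m))) = a • f (G.e j (f.symm m))
    rw [map_smul, G.smul i j a _ ha, map_smul]

lemma proj_sum {M : Type v} [AddCommGroup M] [Module S M] {P Q : Submodule S M}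
    (h : IsCompl P Q) (m : M) : ((P.projectionOnto Q h m : P) : M) +
      ((Q.projectionOnto P h.symm m : Q) : M) = m := by
  obtain ⟨p, hp, q, hq, rfl⟩ := Submodule.mem_sup.1
    (show m ∈ P ⊔ Q by rw [h.sup_eq_top]; trivial)
  have e1 : P.projectionOnto Q h (p + q) = ⟨p, hp⟩ := by
    rw [map_add, (Submodule.projectionOnto_apply_eq_zero_iff h).2 hq, add_zero]
    exact Submodule.projectionOnto_apply_left h ⟨p, hp⟩
  have e2 : Q.projectionOnto P h.symm (p + q) = ⟨q, hq⟩ := by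
    rw [map_add, (Submodule.projectionOnto_apply_eq_zero_iff h.symm).2 hp, zero_add]
    exact Submodule.projectionOnto_apply_left h.symm ⟨q, hq⟩
  rw [e1, e2]

/-- gluing gradings of complementary submodules -/
noncomputable def Gr.glue {M : Type v} [AddCommGroup M] [Module S M] {P Q : Submodule S M}
    (h : IsCompl P Q) (G1 : Gr A P) (G2 : Gr A Q) : Gr A M where
  e i := (P.subtype.toAddMonoidHom.comp ((G1.e i).comp (P.projectionOnto Q h).toAddMonoidHom)) +
    (Q.subtype.toAddMonoidHom.comp ((G2.e i).comp (Q.projectionOnto P h.symm).toAddMonoidHom))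
  ee i m := by
    show ((G1.e i (P.projectionOnto Q h (((G1.e i (P.projectionOnto Q h m) : P) : M) +
      ((G2.e i (Q.projectionOnto P h.symm m) : Q) : M))) : P) : M) +
      ((G2.e i (Q.projectionOnto P h.symm (((G1.e i (P.projectionOnto Q h m) : P) : M) +
      ((G2.e i (Q.projectionOnto P h.symm m) : Q) : M))) : Q) : M) =
      ((G1.e i (P.projectionOnto Q h m) : P) : M) +
      ((G2.e i (Q.projectionOnto P h.symm m) : Q) : M)
    simp only [map_add, Submodule.projectionOnto_apply_left, Submodule.projectionOnto_apply_right,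
      add_zero, zero_add, G1.ee, G2.ee]
  ne i j m hij := by
    show ((G1.e i (P.projectionOnto Q h (((G1.e j (P.projectionOnto Q h m) : P) : M) +
      ((G2.e j (Q.projectionOnto P h.symm m) : Q) : M))) : P) : M) +
      ((G2.e i (Q.projectionOnto P h.symm (((G1.e j (P.projectionOnto Q h m) : P) : M) +
      ((G2.e j (Q.projectionOnto P h.symm m) : Q) : M))) : Q) : M) = 0
    simp only [map_add, Submodule.projectionOnto_apply_left, Submodule.projectionOnto_apply_right,
      add_zero, zero_add, G1.ne i j _ hij, G2.ne i j _ hij]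
    simp
  fin m := by
    classical
    obtain ⟨s, hs⟩ := G1.fin (P.projectionOnto Q h m)
    obtain ⟨t, ht⟩ := G2.fin (Q.projectionOnto P h.symm m)
    have hs' := G1.sum_eq (s := s ∪ t) (m := P.projectionOnto Q h m) (fun i hi =>
      G1.zero_of_notin hs (fun hh => hi (Finset.mem_union_left _ hh)))
    have ht' := G2.sum_eq (s := s ∪ t) (m := Q.projectionOnto P h.symm m) (fun i hi =>
      G2.zero_of_notin ht (fun hh => hi (Finset.mem_union_right _ hh)))
    refine ⟨s ∪ t, ?_⟩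
    show m = ∑ i ∈ s ∪ t, (((G1.e i (P.projectionOnto Q h m) : P) : M) +
      ((G2.e i (Q.projectionOnto P h.symm m) : Q) : M))
    rw [Finset.sum_add_distrib, ← AddSubmonoidClass.coe_finsetSum,
      ← AddSubmonoidClass.coe_finsetSum, hs', ht']
    exact (proj_sum h m).symm
  smul i j a m ha := by
    show ((G1.e (i + j) (P.projectionOnto Q h (a • m)) : P) : M) +
      ((G2.e (i + j) (Q.projectionOnto P h.symm (a • m)) : Q) : M) =
      a • (((G1.e j (P.projectionOnto Q h m) : P) : M) +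
      ((G2.e j (Q.projectionOnto P h.symm m) : Q) : M))
    rw [LinearMap.map_smul, LinearMap.map_smul, G1.smul i j a _ ha, G2.smul i j a _ ha, smul_add]
    rfl

section approx

/-- right approximation by finitely generated gradable modules -/
def HasApprox (A : ℤ → AddSubgroup S) (Y : Type v) [AddCommGroup Y] [Module S Y] : Prop :=
  ∃ (G : Type v) (_ : AddCommGroup G) (_ : Module S G) (f : G →ₗ[S] Y),
    Module.Finite S G ∧ Nonempty (Gr A G) ∧
    ∀ (C : Type v) (_ : AddCommGroup C) (_ : Module S C) (g : C →ₗ[S] Y),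
      Module.Finite S C → Nonempty (Gr A C) → ∃ h : C →ₗ[S] G, f ∘ₗ h = g

variable {Y : Type v} [AddCommGroup Y] [Module S Y]

theorem approx_indec (H : GRing A) [IsArtinianRing S] [Module.Finite S Y] (hY : UInd S Y)
    (h : HasApprox.{u, v} A Y) (hS : ∃ (C : Type v) (_ : AddCommGroup C) (_ : Module S C),
      Module.Finite S C ∧ Nonempty (Gr A C) ∧ ∀ y : Y, ∃ (g : C →ₗ[S] Y), y ∈ LinearMap.range g) :
    Nonempty (Gr A Y) := by
  by_contra hng
  obtain ⟨G, _, _, f, _, ⟨GG⟩, hf⟩ := h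
  set b := (Module.length S G).toNat with hbdef
  have hb : Module.length S G ≤ b := by
    rw [hbdef, ENat.natCast_toNat Module.length_ne_top]
  have key : ∀ n : ℕ, ∀ (X : GM.{u, v} A), Module.length S X.X ≤ b → ∀ g : X.X →ₗ[S] Y,
      g ∈ DG b n X := by
    intro n
    induction n with
    | zero =>
      intro X hX g
      exact AddSubgroup.subset_closure ⟨X, LinearMap.id, g, Ch.nil X hX, rfl⟩
    | succ n ih =>
      intro X hX g
      refine AddSubgroup.closure_le (K := DG b (n + 1) X) |>.2 ?_ (ih X hX g)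
      rintro _ ⟨W, χ, g', hχ, rfl⟩
      have hg' : ¬ Function.Bijective g' := by
        intro hbij
        exact hng ⟨W.G.trans (LinearEquiv.ofBijective g' hbij)⟩
      refine comp_closure χ ?_ (thmA' H hY W g' hg')
      rintro _ ⟨W', s, g'', hs, hsb, rfl⟩
      obtain ⟨h, hh⟩ := hf W'.X _ _ g'' inferInstance ⟨W'.G⟩
      have e1 : (g'' ∘ₗ s) ∘ₗ χ = f ∘ₗ (1 : Module.End S G) ∘ₗ (h ∘ₗ s ∘ₗ χ) := by
        rw [← hh]; rfl
      rw [e1]
      refine comp2_closure _ f ?_ (dec GG hb)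
      rintro _ ⟨W'', π, ι, a0, a1, a2, a3, rfl⟩
      obtain ⟨L, hL⟩ := exists_bdd H W'.G
      obtain ⟨L', hL'⟩ := exists_bdd H W''.G
      have e2 : f ∘ₗ (ι ∘ₗ π) ∘ₗ (h ∘ₗ s ∘ₗ χ) = ∑ d ∈ Finset.Icc (-((L + L' : ℕ) : ℤ)) (L + L' : ℕ),
          (f ∘ₗ ι) ∘ₗ ((cmp H hL W''.G (π ∘ₗ h) d ∘ₗ s) ∘ₗ χ) := by
        have e3 : f ∘ₗ (ι ∘ₗ π) ∘ₗ (h ∘ₗ s ∘ₗ χ) = (f ∘ₗ ι) ∘ₗ (((π ∘ₗ h) ∘ₗ s) ∘ₗ χ) := rfl
        rw [e3]
        conv_lhs => rw [← sum_cmp H hL hL' (π ∘ₗ h)]
        ext x
        simp only [LinearMap.comp_apply, LinearMap.sum_apply, map_sum]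
      rw [e2]
      refine sum_mem fun d _ => AddSubgroup.subset_closure ⟨W'', _, f ∘ₗ ι, ?_, rfl⟩
      have hc := cmp_hg (G' := W''.G) H hL (π ∘ₗ h) d
      refine Ch.cons _ (0 + d) hχ (hs.comp hc) ?_ a0
      intro hbij
      exact hsb (comp_not_bij W.ind.1 W'.ind hs hc hbij)
  have key2 : ∀ (X : GM.{u, v} A), Module.length S X.X ≤ b → ∀ g : X.X →ₗ[S] Y, g = 0 := by
    intro X hX g
    have h1 := key (2 ^ b - 1) X hX g
    have h2 : DG (Y := Y) b (2 ^ b - 1) X ≤ ⊥ := by
      unfold DG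
      rw [AddSubgroup.closure_le]
      rintro _ ⟨W, χ, g', hχ, rfl⟩
      rw [hχ.eq_zero, LinearMap.comp_zero]
      exact zero_mem _
    exact h2 h1
  have hf0 : f = 0 := by
    have e1 : f = f ∘ₗ (1 : Module.End S G) ∘ₗ LinearMap.id := rfl
    have h1 : f ∈ (⊥ : AddSubgroup (G →ₗ[S] Y)) := by
      rw [e1]
      refine comp2_closure _ f ?_ (dec GG hb)
      rintro _ ⟨W'', π, ι, a0, a1, a2, a3, rfl⟩
      have e2 : f ∘ₗ (ι ∘ₗ π) ∘ₗ LinearMap.id = (f ∘ₗ ι) ∘ₗ π := rfl
      rw [e2, key2 W'' a0 (f ∘ₗ ι), LinearMap.zero_comp]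
      exact zero_mem _
    exact h1
  obtain ⟨y, hy⟩ := @exists_ne _ hY.1 (0 : Y)
  apply hy
  obtain ⟨C, _, _, hC1, hC2, hC3⟩ := hS
  obtain ⟨g, x, rfl⟩ := hC3 y
  obtain ⟨h, hh⟩ := hf C _ _ g hC1 hC2
  rw [← hh, hf0, LinearMap.zero_comp, LinearMap.zero_apply]

lemma HasApprox.summand {N : Type v} [AddCommGroup N] [Module S N] (h : HasApprox.{u, v} A N)
    {P : Type v} [AddCommGroup P] [Module S P] (π : N →ₗ[S] P) (ι : P →ₗ[S] N)
    (hπ : π ∘ₗ ι = LinearMap.id) : HasApprox.{u, v} A P := by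
  obtain ⟨G, _, _, f, h1, h2, h3⟩ := h
  refine ⟨G, _, _, π ∘ₗ f, h1, h2, ?_⟩
  intro C _ _ g hC hC'
  obtain ⟨k, hk⟩ := h3 C _ _ (ι ∘ₗ g) hC hC'
  refine ⟨k, ?_⟩
  rw [LinearMap.comp_assoc, hk, ← LinearMap.comp_assoc, hπ, LinearMap.id_comp]

theorem approx_main (H : GRing A) [IsArtinianRing S] (n : ℕ)
    (hS : ∃ (C : Type v) (_ : AddCommGroup C) (_ : Module S C),
      Module.Finite S C ∧ Nonempty (Gr A C) ∧ ∀ (N : Type v) (_ : AddCommGroup N) (_ : Module S N)
        (y : N), ∃ (g : C →ₗ[S] N), y ∈ LinearMap.range g) :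
    ∀ (N : Type v) [AddCommGroup N] [Module S N] [Module.Finite S N],
      ln (⊤ : Submodule S N) ≤ n → HasApprox.{u, v} A N → Nonempty (Gr A N) := by
  induction n with
  | zero =>
    intro N _ _ _ hn _
    have h1 : (⊤ : Submodule S N) = ⊥ := eq_bot_of_ln (by omega)
    have hz : ∀ x : N, x = 0 := by
      intro x
      have : x ∈ (⊤ : Submodule S N) := trivial
      rwa [h1, Submodule.mem_bot] at this
    exact ⟨⟨fun _ => 0, fun _ _ => rfl, fun _ _ _ _ => rfl, fun m => ⟨∅, by simp [hz m]⟩,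
      fun i j a m _ => by simp⟩⟩
  | succ n ih =>
    intro N _ _ _ hn ha
    by_cases hi : UInd S N
    · obtain ⟨C, i1, i2, h1, h2, h3⟩ := hS
      exact approx_indec H hi ha ⟨C, i1, i2, h1, h2, fun y => h3 N _ _ y⟩
    · by_cases hnt : Nontrivial N
      · have : ∃ P Q : Submodule S N, IsCompl P Q ∧ P ≠ ⊥ ∧ Q ≠ ⊥ := by
          by_contra hc
          push Not at hc
          apply hi
          refine ⟨hnt, fun P Q h3 => ?_⟩
          by_cases hP : P = ⊥
          · left; exact hP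
          · right; exact hc P Q h3 hP
        obtain ⟨P, Q, hc, hP0, hQ0⟩ := this
        have key : ∀ P Q : Submodule S N, IsCompl P Q → Q ≠ ⊥ → Nonempty (Gr A P) := by
          intro P Q hc hQ0
          apply ih P
          · have hlt : P < ⊤ := by
              rw [lt_top_iff_ne_top]
              rintro rfl
              exact hQ0 (top_disjoint.1 hc.disjoint)
            have h1 := ln_lt hlt
            have h2 : ln (⊤ : Submodule S P) = ln P := by
              unfold ln; rw [Module.length_top]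
            omega
          · exact ha.summand (P.projectionOnto Q hc) P.subtype (by ext x; simp)
        obtain ⟨G1⟩ := key P Q hc hQ0
        obtain ⟨G2⟩ := key Q P hc.symm hP0
        exact ⟨Gr.glue hc G1 G2⟩
      · rw [not_nontrivial_iff_subsingleton] at hnt
        exact ⟨⟨fun _ => 0, fun _ _ => rfl, fun _ _ _ _ => rfl,
          fun m => ⟨∅, Subsingleton.elim _ _⟩, fun i j a m _ => Subsingleton.elim _ _⟩⟩

end approx

section prep

/-- `Y` is a direct summand of a finite direct sum of copies of `X` -/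
def InAdd (S : Type u) [Ring S] (X Y : Type v) [AddCommGroup X] [Module S X] [AddCommGroup Y]
    [Module S Y] : Prop :=
  ∃ (n : ℕ) (i : Y →ₗ[S] (Fin n → X)) (p : (Fin n → X) →ₗ[S] Y), p ∘ₗ i = LinearMap.id

lemma InAdd.length {X Y : Type v} [AddCommGroup X] [Module S X] [AddCommGroup Y]
    [Module S Y] (h : InAdd S X Y) (hY : LocalEnd S Y) : Module.length S Y ≤ Module.length S X := by
  classical
  obtain ⟨n, i, p, hp⟩ := h
  have e : ∑ k : Fin n, (p ∘ₗ LinearMap.single S (fun _ : Fin n => X) k) ∘ₗ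
      (LinearMap.proj k ∘ₗ i) = LinearMap.id := by
    rw [← hp]
    ext y
    simp only [LinearMap.sum_apply, LinearMap.comp_apply]
    rw [← map_sum]
    congr 1
    ext j
    simp [Finset.sum_apply, Pi.single_apply]
  obtain ⟨k, _, hk⟩ := hY.sum Finset.univ (fun k : Fin n =>
    (p ∘ₗ LinearMap.single S (fun _ : Fin n => X) k) ∘ₗ (LinearMap.proj k ∘ₗ i)) (by
      rw [e]; exact Function.bijective_id)
  refine Module.length_le_of_injective (LinearMap.proj k ∘ₗ i : Y →ₗ[S] X) ?_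
  intro x y hxy
  apply hk.1
  exact congrArg (p ∘ₗ LinearMap.single S (fun _ : Fin n => X) k) hxy

lemma InAdd.summand {X Y W : Type v} [AddCommGroup X] [Module S X] [AddCommGroup Y]
    [Module S Y] [AddCommGroup W] [Module S W] (h : InAdd S X Y) (π : Y →ₗ[S] W)
    (ι : W →ₗ[S] Y) (hπ : π ∘ₗ ι = LinearMap.id) : InAdd S X W := by
  obtain ⟨n, i, p, hp⟩ := h
  refine ⟨n, i ∘ₗ ι, π ∘ₗ p, ?_⟩
  ext x
  have e1 := LinearMap.congr_fun hp (ι x)
  have e2 := LinearMap.congr_fun hπ x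
  simp only [LinearMap.comp_apply, LinearMap.id_apply] at e1 e2 ⊢
  rw [e1, e2]

/-- the second condition in the definition of preprojective modules -/
def PrepCond (S : Type u) [Ring S] (X Y : Type v) [AddCommGroup X] [Module S X] [AddCommGroup Y]
    [Module S Y] : Prop :=
  ∀ (Z : Type v) (_ : AddCommGroup Z) (_ : Module S Z) (f : Z →ₗ[S] Y),
    Module.FinitePresentation S Z → Function.Surjective f →
    (¬ ∃ s : Y →ₗ[S] Z, f ∘ₗ s = LinearMap.id) →
    ∃ P Q : Submodule S Z, IsCompl P Q ∧ P ≠ ⊥ ∧ InAdd S X P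

theorem prep_main (H : GRing A) [IsArtinianRing S] {Y X₀ : Type v} [AddCommGroup Y] [Module S Y]
    [Module.Finite S Y] (hY : UInd S Y) [AddCommGroup X₀] [Module S X₀] [Module.Finite S X₀]
    (hS : ∃ (C : Type v) (_ : AddCommGroup C) (_ : Module S C),
      Module.Finite S C ∧ Nonempty (Gr A C) ∧ ∀ (N : Type v) (_ : AddCommGroup N) (_ : Module S N)
        (y : N), ∃ (g : C →ₗ[S] N), y ∈ LinearMap.range g)
    (hX : PrepCond S X₀ Y) : Nonempty (Gr A Y) := by
  classical
  by_contra hng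
  set b := (Module.length S X₀).toNat with hbdef
  have hb : Module.length S X₀ ≤ b := by
    rw [hbdef, ENat.natCast_toNat Module.length_ne_top]
  have hloc : ∀ W : GM.{u, v} A, LocalEnd S W.X := fun W => by
    obtain ⟨L, hL⟩ := exists_bdd H W.G
    exact GM.localEnd H hL
  let TS : Set (Submodule S Y) := {P | ∃ (W : GM.{u, v} A) (g : W.X →ₗ[S] Y),
    ¬ InAdd S X₀ W.X ∧ P = LinearMap.range g}
  set T := sSup TS with hT
  let TG : ∀ X : GM.{u, v} A, AddSubgroup (X.X →ₗ[S] Y) := fun X =>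
    { carrier := {φ | LinearMap.range φ ≤ T}
      add_mem' := by
        rintro a b ha hb _ ⟨x, rfl⟩
        exact add_mem (ha ⟨x, rfl⟩) (hb ⟨x, rfl⟩)
      zero_mem' := by
        rintro _ ⟨x, rfl⟩
        exact zero_mem _
      neg_mem' := by
        rintro a ha _ ⟨x, rfl⟩
        exact neg_mem (ha ⟨x, rfl⟩) }
  have key : ∀ n : ℕ, ∀ (X : GM.{u, v} A), Module.length S X.X ≤ b → ∀ g : X.X →ₗ[S] Y,
      g ∈ DG b n X ⊔ TG X := by
    intro n
    induction n with
    | zero =>
      intro X hX g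
      exact AddSubgroup.mem_sup_left
        (AddSubgroup.subset_closure ⟨X, LinearMap.id, g, Ch.nil X hX, rfl⟩)
    | succ n ih =>
      intro X hX g
      have hle : DG b n X ⊔ TG X ≤ DG b (n + 1) X ⊔ TG X := by
        refine sup_le ?_ le_sup_right
        unfold DG
        rw [AddSubgroup.closure_le]
        rintro _ ⟨W, χ, g', hχ, rfl⟩
        have hg' : ¬ Function.Bijective g' := by
          intro hbij
          exact hng ⟨W.G.trans (LinearEquiv.ofBijective g' hbij)⟩
        refine comp_closure χ ?_ (thmA' H hY W g' hg')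
        rintro _ ⟨W', s, g'', hs, hsb, rfl⟩
        by_cases hW' : InAdd S X₀ W'.X
        · apply AddSubgroup.mem_sup_left
          refine AddSubgroup.subset_closure ⟨W', s ∘ₗ χ, g'', ?_, rfl⟩
          exact Ch.cons s 0 hχ hs hsb ((hW'.length (hloc W')).trans hb)
        · apply AddSubgroup.mem_sup_right
          rintro _ ⟨x, rfl⟩
          exact (le_sSup (show LinearMap.range g'' ∈ TS from ⟨W', g'', hW', rfl⟩)) ⟨_, rfl⟩
      exact hle (ih X hX g)
  have key2 : ∀ (X : GM.{u, v} A) (g : X.X →ₗ[S] Y), LinearMap.range g ≤ T := by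
    intro X g
    by_cases hXa : InAdd S X₀ X.X
    · have h1 := key (2 ^ b - 1) X ((hXa.length (hloc X)).trans hb) g
      have h2 : DG (Y := Y) b (2 ^ b - 1) X ⊔ TG X ≤ TG X := by
        refine sup_le ?_ le_rfl
        unfold DG
        rw [AddSubgroup.closure_le]
        rintro _ ⟨W, χ, g', hχ, rfl⟩
        rw [hχ.eq_zero, LinearMap.comp_zero]
        exact zero_mem _
      exact h2 h1
    · exact le_sSup ⟨X, g, hXa, rfl⟩
  have hTtop : T = ⊤ := by
    rw [eq_top_iff]
    intro y _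
    obtain ⟨C, _, _, hC1, ⟨GC⟩, hC3⟩ := hS
    obtain ⟨g, hg⟩ := hC3 Y _ _ y
    have h1 : ∀ φ : Module.End S C, φ ∈ DecSet GC (Module.length S C).toNat →
        LinearMap.range (g ∘ₗ φ) ≤ T := by
      intro φ hφ
      refine AddSubgroup.closure_induction (p := fun φ _ => LinearMap.range (g ∘ₗ φ) ≤ T)
        ?_ ?_ ?_ ?_ hφ
      · rintro φ ⟨W, π, ι, a0, a1, a2, a3, rfl⟩
        refine le_trans ?_ (key2 W (g ∘ₗ ι))
        rintro _ ⟨x, rfl⟩
        exact ⟨π x, rfl⟩
      · rintro _ ⟨x, rfl⟩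
        rw [LinearMap.comp_zero]; exact zero_mem _
      · rintro a b _ _ ha hb _ ⟨x, rfl⟩
        rw [LinearMap.comp_add]
        exact add_mem (ha ⟨x, rfl⟩) (hb ⟨x, rfl⟩)
      · rintro a _ ha _ ⟨x, rfl⟩
        rw [LinearMap.comp_neg]
        exact neg_mem (ha ⟨x, rfl⟩)
    have h2 := h1 1 (dec GC (by rw [ENat.natCast_toNat Module.length_ne_top]))
    exact h2 hg
  -- compactness
  have hcomp : IsCompactElement (⊤ : Submodule S Y) :=
    (Submodule.fg_iff_compact _).1 (IsNoetherian.noetherian _)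
  obtain ⟨t, ht1, ht2⟩ := (CompleteLattice.isCompactElement_iff_exists_le_sSup_of_le_sSup
    (Submodule S Y) ⊤).1 hcomp TS (by rw [← hT, hTtop])
  have hch : ∀ P : t, ∃ (W : GM.{u, v} A) (g : W.X →ₗ[S] Y), ¬ InAdd S X₀ W.X ∧
      (P : Submodule S Y) = LinearMap.range g := fun P => ht1 P.2
  choose W g hW hg using hch
  let Z := ∀ P : t, (W P).X
  let f : Z →ₗ[S] Y := ∑ P : t, g P ∘ₗ LinearMap.proj P
  have hf : ∀ (P : t) (x : (W P).X), f (LinearMap.single S (fun P => (W P).X) P x) = g P x := by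
    intro P x
    simp only [f, LinearMap.sum_apply, LinearMap.comp_apply, LinearMap.proj_apply,
      LinearMap.single_apply]
    rw [Finset.sum_eq_single P]
    · show g P ((Pi.single P x : Z) P) = _
      rw [Pi.single_eq_same]
    · intro P' _ hP'
      show g P' ((Pi.single P x : Z) P') = _
      rw [Pi.single_eq_of_ne hP', map_zero]
    · intro h; exact absurd (Finset.mem_univ _) h
  have hsurj : Function.Surjective f := by
    rw [← LinearMap.range_eq_top, eq_top_iff]
    refine ht2.trans ?_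
    apply Finset.sup_le
    intro P hP
    rw [id_eq, show P = LinearMap.range (g ⟨P, hP⟩) from hg ⟨P, hP⟩]
    rintro _ ⟨x, rfl⟩
    exact ⟨_, hf ⟨P, hP⟩ x⟩
  have hZfin : Module.Finite S Z := Module.Finite.pi
  have hZfp : Module.FinitePresentation S Z := Module.finitePresentation_of_finite S Z
  have hYloc := UInd.localEnd hY
  by_cases hsplit : ∃ s : Y →ₗ[S] Z, f ∘ₗ s = LinearMap.id
  · obtain ⟨σ, hσ⟩ := hsplit
    have e1 : ∑ P : t, g P ∘ₗ (LinearMap.proj P ∘ₗ σ) = LinearMap.id := by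
      rw [← hσ]
      ext y
      simp only [f, LinearMap.sum_apply, LinearMap.comp_apply]
    obtain ⟨P, _, hP⟩ := hYloc.sum Finset.univ (fun P : t => g P ∘ₗ (LinearMap.proj P ∘ₗ σ))
      (by rw [e1]; exact Function.bijective_id)
    have := ((hloc (W P)).bij_of_split hY.1 (LinearMap.proj P ∘ₗ σ) (g P) hP).2
    exact hng ⟨(W P).G.trans (LinearEquiv.ofBijective _ this)⟩
  · obtain ⟨P1, Q1, hPQ, hP1, hadd⟩ := hX Z _ _ f hZfp hsurj hsplit
    have : Nontrivial P1 := (Submodule.nontrivial_iff_ne_bot).2 hP1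
    obtain ⟨V, π, ι, h1, h2⟩ := exists_uind (S := S) (M := P1)
    have hVloc := UInd.localEnd h2
    have e1 : ∑ P : t, (π ∘ₗ P1.projectionOnto Q1 hPQ ∘ₗ LinearMap.single S _ P) ∘ₗ
        (LinearMap.proj P ∘ₗ P1.subtype ∘ₗ ι) = LinearMap.id := by
      ext x
      simp only [LinearMap.sum_apply, LinearMap.comp_apply]
      rw [← map_sum, ← map_sum]
      have e2 : ∀ z : Z, ∑ P : t, (LinearMap.single S (fun P => (W P).X) P)
          ((LinearMap.proj (R := S) (φ := fun P : t => (W P).X) P) z) = z := by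
        intro z
        funext j
        rw [Finset.sum_apply, Finset.sum_eq_single j]
        · show (Pi.single j (z j) : Z) j = _
          rw [Pi.single_eq_same]
        · intro P' _ hP'
          show (Pi.single P' (z P') : Z) j = _
          rw [Pi.single_eq_of_ne (Ne.symm hP')]
        · intro h; exact absurd (Finset.mem_univ _) h
      rw [e2]
      have e3 : P1.projectionOnto Q1 hPQ (P1.subtype (ι x)) = ι x :=
        Submodule.projectionOnto_apply_left hPQ _
      rw [e3]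
      exact LinearMap.congr_fun h1 x
    obtain ⟨P, _, hP⟩ := hVloc.sum Finset.univ (fun P : t =>
      (π ∘ₗ P1.projectionOnto Q1 hPQ ∘ₗ LinearMap.single S _ P) ∘ₗ
        (LinearMap.proj P ∘ₗ P1.subtype ∘ₗ ι)) (by rw [e1]; exact Function.bijective_id)
    have h3 := ((hloc (W P)).bij_of_split V.ind.1 _ _ hP).1
    apply hW P
    have h4 : InAdd S X₀ V.X := hadd.summand π ι h1
    let e := LinearEquiv.ofBijective _ h3
    exact h4.summand (e : V.X →ₗ[S] (W P).X) (e.symm : (W P).X →ₗ[S] V.X) (by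
      ext x; exact e.apply_symm_apply x)

end prep

end Pool.Agent.V1166.GA
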