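import Pool.Agent.V1166.GA.Main

namespace Pool.Agent.V1166.GA

universe u v w

/-- `R = ⨁ R_i` with `R_i R_j ⊆ R_{i+j}` -/
def IsGradedRing {R : Type u} [Ring R] (A : ℤ → AddSubgroup R) : Prop :=
  DirectSum.IsInternal A ∧ ∀ i j : ℤ, ∀ a ∈ A i, ∀ b ∈ A j, a * b ∈ A (i + j)

/-- `N = ⨁ N_i` with `N_i R_j ⊆ N_{i+j}` -/
def IsGradedModule {R : Type u} [Ring R] (A : ℤ → AddSubgroup R) {N : Type v} [AddCommGroup N]
    [Module Rᵐᵒᵖ N] (B : ℤ → AddSubgroup N) : Prop :=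
  DirectSum.IsInternal B ∧ ∀ i j : ℤ, ∀ n ∈ B i, ∀ r ∈ A j, MulOpposite.op r • n ∈ B (i + j)

/-- isomorphic to the underlying module of a graded right module -/
def Gradable {R : Type u} [Ring R] (A : ℤ → AddSubgroup R) (M : Type v) [AddCommGroup M]
    [Module Rᵐᵒᵖ M] : Prop :=
  ∃ (N : Type v) (_ : AddCommGroup N) (_ : Module Rᵐᵒᵖ N) (B : ℤ → AddSubgroup N),
    IsGradedModule A B ∧ Nonempty (M ≃ₗ[Rᵐᵒᵖ] N)

section conv

lemma ops_of_internal {M : Type v} [AddCommGroup M] (B : ℤ → AddSubgroup M)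
    (h : DirectSum.IsInternal B) : ∃ e : ℤ → M →+ M, (∀ i m, e i m ∈ B i) ∧
      (∀ i, ∀ m ∈ B i, e i m = m) ∧ (∀ i j, i ≠ j → ∀ m ∈ B j, e i m = 0) ∧
      ∀ m, ∃ s : Finset ℤ, m = ∑ i ∈ s, e i m := by
  classical
  let _ := h.chooseDecomposition
  refine ⟨fun i => AddMonoidHom.mk' (fun m => ((DirectSum.decompose B m i : B i) : M)) ?_,
    ?_, ?_, ?_, ?_⟩
  · intro a b
    rw [DirectSum.decompose_add]
    rfl
  · intro i m
    exact (DirectSum.decompose B m i).2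
  · intro i m hm
    exact DirectSum.decompose_of_mem_same B hm
  · intro i j hij m hm
    exact DirectSum.decompose_of_mem_ne B hm (Ne.symm hij)
  · intro m
    refine ⟨DFinsupp.support (DirectSum.decompose B m), ?_⟩
    exact (DirectSum.sum_support_decompose B m).symm

lemma internal_of_gr {S : Type u} [Ring S] {A : ℤ → AddSubgroup S} {M : Type v} [AddCommGroup M]
    [Module S M] (G : Gr A M) : ∃ B : ℤ → AddSubgroup M, DirectSum.IsInternal B ∧
      ∀ i j : ℤ, ∀ n ∈ B i, ∀ r ∈ A j, r • n ∈ B (i + j) := by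
  classical
  let B : ℤ → AddSubgroup M := fun i =>
    { carrier := {m | G.e i m = m}
      add_mem' := by intro a b ha hb; rw [Set.mem_ofPred_eq, map_add, ha, hb]
      zero_mem' := map_zero _
      neg_mem' := by intro a ha; rw [Set.mem_ofPred_eq, map_neg, ha] }
  have hB : ∀ i m, m ∈ B i ↔ G.e i m = m := fun i m => Iff.rfl
  refine ⟨B, ⟨?_, ?_⟩, ?_⟩
  · rw [injective_iff_map_eq_zero]
    intro x hx
    have key : ∀ (x : DirectSum ℤ fun i => B i) (i : ℤ), ((x i : B i) : M) =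
        G.e i (DirectSum.coeAddMonoidHom B x) := by
      intro x i
      induction x using DirectSum.induction_on with
      | zero => simp
      | of j y =>
        rw [DirectSum.coeAddMonoidHom_of]
        by_cases hij : i = j
        · subst hij
          rw [DirectSum.of_eq_same]
          exact ((hB i y).1 y.2).symm
        · rw [DirectSum.of_eq_of_ne _ _ _ hij]
          have : (y : M) = G.e j y := ((hB j y).1 y.2).symm
          rw [this, G.ne i j _ hij]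
          rfl
      | add x y hx hy =>
        rw [map_add, map_add, ← hx, ← hy]
        rfl
    ext i
    rw [key x i, hx, map_zero]
    rfl
  · intro m
    obtain ⟨s, hs⟩ := G.fin m
    refine ⟨∑ i ∈ s, DirectSum.of (fun i => B i) i ⟨G.e i m, (hB i _).2 (G.ee i m)⟩, ?_⟩
    rw [map_sum]
    simp only [DirectSum.coeAddMonoidHom_of]
    exact hs.symm
  · intro i j n hn r hr
    rw [hB] at hn ⊢
    rw [add_comm i j, G.smul j i r n hr, hn]

/-- the grading of the opposite ring -/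
def opA {R : Type u} [Ring R] (A : ℤ → AddSubgroup R) (i : ℤ) : AddSubgroup Rᵐᵒᵖ where
  carrier := {s | s.unop ∈ A i}
  add_mem' := fun ha hb => add_mem (S := AddSubgroup R) ha hb
  zero_mem' := zero_mem (A i)
  neg_mem' := fun ha => neg_mem (S := AddSubgroup R) ha

variable {R : Type u} [Ring R] {A : ℤ → AddSubgroup R}

lemma gr_of_graded {N : Type v} [AddCommGroup N] [Module Rᵐᵒᵖ N] (B : ℤ → AddSubgroup N)
    (h : IsGradedModule A B) : ∃ G : Gr (opA A) N, ∀ i m, G.e i m ∈ B i ∧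
      (m ∈ B i → G.e i m = m) := by
  obtain ⟨e, h1, h2, h3, h4⟩ := ops_of_internal B h.1
  refine ⟨⟨e, ?_, ?_, h4, ?_⟩, ?_⟩
  · exact fun i m => h2 i _ (h1 i m)
  · exact fun i j m hij => h3 i j hij _ (h1 j m)
  · intro i j a m ha
    obtain ⟨s, hs⟩ := h4 m
    have key : ∀ k, e (i + j) (a • e k m) = if j = k then a • e j m else 0 := by
      intro k
      have hm : a • e k m ∈ B (k + i) := by
        have := h.2 k i (e k m) (h1 k m) a.unop ha
        rwa [MulOpposite.op_unop] at this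
      split_ifs with hjk
      · subst hjk
        exact h2 _ _ (by rw [add_comm]; exact hm)
      · exact h3 _ _ (by omega) _ hm
    have hj : ∀ j, j ∉ s → e j m = 0 := by
      intro j hj
      rw [hs, map_sum]
      refine Finset.sum_eq_zero fun k hk => h3 j k ?_ _ (h1 k m)
      rintro rfl; exact hj hk
    conv_lhs => rw [hs, Finset.smul_sum, map_sum]
    rw [Finset.sum_congr rfl fun k _ => key k, Finset.sum_ite_eq]
    split_ifs with hjs
    · rfl
    · rw [hj j hjs, smul_zero]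
  · exact fun i m => ⟨h1 i m, h2 i m⟩

lemma gRing_of_graded (h : IsGradedRing A) : Nonempty (GRing (opA A)) := by
  obtain ⟨e, h1, h2, h3, h4⟩ := ops_of_internal A h.1
  have hmul : ∀ i j (a b : R), b ∈ A i → e (i + j) (a * b) = e j a * b := by
    intro i j a b hb
    obtain ⟨s, hs⟩ := h4 a
    have key : ∀ k, e (i + j) (e k a * b) = if j = k then e j a * b else 0 := by
      intro k
      have hm : e k a * b ∈ A (k + i) := h.2 k i _ (h1 k a) b hb
      split_ifs with hjk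
      · subst hjk
        exact h2 _ _ (by rw [add_comm]; exact hm)
      · exact h3 _ _ (by omega) _ hm
    have hj : ∀ j, j ∉ s → e j a = 0 := by
      intro j hj
      rw [hs, map_sum]
      refine Finset.sum_eq_zero fun k hk => h3 j k ?_ _ (h1 k a)
      rintro rfl; exact hj hk
    conv_lhs => rw [hs, Finset.sum_mul, map_sum]
    rw [Finset.sum_congr rfl fun k _ => key k, Finset.sum_ite_eq]
    split_ifs with hjs
    · rfl
    · rw [hj j hjs, zero_mul]
  have hone : (1 : R) ∈ A 0 := by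
    have h5 : ∀ i, ∀ b ∈ A i, e 0 1 * b = b := by
      intro i b hb
      have := hmul i 0 1 b hb
      rw [add_zero, one_mul, h2 i b hb] at this
      exact this.symm
    have h6 : ∀ b, e 0 1 * b = b := by
      intro b
      obtain ⟨s, hs⟩ := h4 b
      conv_lhs => rw [hs, Finset.mul_sum]
      conv_rhs => rw [hs]
      exact Finset.sum_congr rfl fun i _ => h5 i _ (h1 i b)
    have h7 := h6 1
    rw [mul_one] at h7
    rw [← h7]
    exact h1 0 1
  let E : ℤ → Rᵐᵒᵖ →+ Rᵐᵒᵖ := fun i =>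
    AddMonoidHom.mk' (fun s => MulOpposite.op (e i s.unop)) (by
      intro a b
      rw [MulOpposite.unop_add, map_add, MulOpposite.op_add])
  refine ⟨⟨⟨E, ?_, ?_, ?_, ?_⟩, ?_, ?_, ?_⟩⟩
  · intro i m
    show MulOpposite.op (e i (e i m.unop)) = MulOpposite.op (e i m.unop)
    rw [h2 i _ (h1 i _)]
  · intro i j m hij
    show MulOpposite.op (e i (e j m.unop)) = 0
    rw [h3 i j hij _ (h1 j _), MulOpposite.op_zero]
  · intro m
    obtain ⟨s, hs⟩ := h4 m.unop
    refine ⟨s, ?_⟩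
    have h5 : m = (MulOpposite.opAddEquiv : R ≃+ Rᵐᵒᵖ) (∑ i ∈ s, e i m.unop) := by
      rw [← hs]; rfl
    refine h5.trans ?_
    rw [map_sum]
    rfl
  · intro i j a m ha
    show MulOpposite.op (e (i + j) (m.unop * a.unop)) = a • MulOpposite.op (e j m.unop)
    rw [hmul i j m.unop a.unop ha]
    rfl
  · intro i a
    exact h1 i a.unop
  · intro i a ha
    show MulOpposite.op (e i a.unop) = a
    rw [h2 i _ ha, MulOpposite.op_unop]
  · exact hone

lemma artinian_op (h : IsArtinian Rᵐᵒᵖ R) : IsArtinianRing Rᵐᵒᵖ := by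
  let f : R ≃ₗ[Rᵐᵒᵖ] Rᵐᵒᵖ :=
    { toFun := MulOpposite.op
      invFun := MulOpposite.unop
      map_add' := fun _ _ => rfl
      map_smul' := fun _ _ => rfl
      left_inv := fun _ => rfl
      right_inv := fun _ => rfl }
  exact isArtinian_of_linearEquiv f

lemma gradable_iff {M : Type v} [AddCommGroup M] [Module Rᵐᵒᵖ M] :
    Gradable A M ↔ Nonempty (Gr (opA A) M) := by
  constructor
  · rintro ⟨N, _, _, B, hB, ⟨f⟩⟩
    obtain ⟨G, -⟩ := gr_of_graded B hB
    exact ⟨G.trans f.symm⟩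
  · rintro ⟨G⟩
    obtain ⟨B, hB1, hB2⟩ := internal_of_gr G
    exact ⟨M, _, _, B, ⟨hB1, fun i j n hn r hr => hB2 i j n hn (MulOpposite.op r) hr⟩,
      ⟨LinearEquiv.refl _ _⟩⟩

lemma hS_op (H : GRing (opA A)) : ∃ (C : Type u) (_ : AddCommGroup C) (_ : Module Rᵐᵒᵖ C),
    Module.Finite Rᵐᵒᵖ C ∧ Nonempty (Gr (opA A) C) ∧ ∀ (N : Type u) (_ : AddCommGroup N)
      (_ : Module Rᵐᵒᵖ N) (y : N), ∃ (g : C →ₗ[Rᵐᵒᵖ] N), y ∈ LinearMap.range g :=
  ⟨Rᵐᵒᵖ, inferInstance, inferInstance, inferInstance, ⟨H.gr⟩, fun N _ _ y =>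
    ⟨LinearMap.toSpanSingleton Rᵐᵒᵖ N y, 1, by simp⟩⟩

end conv

/-- right approximation of `X` by finitely generated gradable modules -/
def HasRightApproximation {R : Type u} [Ring R] (A : ℤ → AddSubgroup R) (N : Type u)
    [AddCommGroup N] [Module Rᵐᵒᵖ N] : Prop :=
  ∃ (G : Type u) (_ : AddCommGroup G) (_ : Module Rᵐᵒᵖ G) (f : G →ₗ[Rᵐᵒᵖ] N),
    (Module.Finite Rᵐᵒᵖ G ∧ Gradable A G) ∧
    ∀ (C : Type u) (_ : AddCommGroup C) (_ : Module Rᵐᵒᵖ C) (g : C →ₗ[Rᵐᵒᵖ] N),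
      Module.Finite Rᵐᵒᵖ C → Gradable A C → ∃ h : C →ₗ[Rᵐᵒᵖ] G, f ∘ₗ h = g

theorem right_approx (R : Type u) [Ring R] (A : ℤ → AddSubgroup R) (h : IsGradedRing A)
    (hR : IsArtinian Rᵐᵒᵖ R) (N : Type u) [AddCommGroup N] [Module Rᵐᵒᵖ N]
    [Module.Finite Rᵐᵒᵖ N] (hN : HasRightApproximation A N) : Gradable A N := by
  obtain ⟨H⟩ := gRing_of_graded h
  have := artinian_op hR
  rw [gradable_iff]
  refine approx_main H _ (hS_op H) N le_rfl ?_
  obtain ⟨G, i1, i2, f, ⟨h1, h2⟩, h3⟩ := hN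
  refine ⟨G, i1, i2, f, h1, gradable_iff.1 h2, ?_⟩
  intro C j1 j2 g hC hC'
  exact h3 C j1 j2 g hC (gradable_iff.2 hC')

/-- membership in `add X` -/
def InAddR {R : Type u} [Ring R] (X Y : Type u) [AddCommGroup X] [Module Rᵐᵒᵖ X]
    [AddCommGroup Y] [Module Rᵐᵒᵖ Y] : Prop :=
  ∃ (n : ℕ) (i : Y →ₗ[Rᵐᵒᵖ] (Fin n → X)) (p : (Fin n → X) →ₗ[Rᵐᵒᵖ] Y), p ∘ₗ i = LinearMap.id

/-- preprojective modules -/
def Preprojective {R : Type u} [Ring R] (Y : Type u) [AddCommGroup Y] [Module Rᵐᵒᵖ Y] : Prop :=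
  Module.FinitePresentation Rᵐᵒᵖ Y ∧
  (Nontrivial Y ∧ ∀ P Q : Submodule Rᵐᵒᵖ Y, IsCompl P Q → P = ⊥ ∨ Q = ⊥) ∧
  ∃ (X : Type u) (_ : AddCommGroup X) (_ : Module Rᵐᵒᵖ X),
    Module.FinitePresentation Rᵐᵒᵖ X ∧ ¬ InAddR (R := R) X Y ∧
    ∀ (Z : Type u) (_ : AddCommGroup Z) (_ : Module Rᵐᵒᵖ Z) (f : Z →ₗ[Rᵐᵒᵖ] Y),
      Module.FinitePresentation Rᵐᵒᵖ Z → Function.Surjective f →
      (¬ ∃ s : Y →ₗ[Rᵐᵒᵖ] Z, f ∘ₗ s = LinearMap.id) →
      ∃ P Q : Submodule Rᵐᵒᵖ Z, IsCompl P Q ∧ P ≠ ⊥ ∧ InAddR (R := R) X P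

theorem right_prep (R : Type u) [Ring R] (A : ℤ → AddSubgroup R) (h : IsGradedRing A)
    (hR : IsArtinian Rᵐᵒᵖ R) (Y : Type u) [AddCommGroup Y] [Module Rᵐᵒᵖ Y]
    (hY : Preprojective (R := R) Y) : Gradable A Y := by
  obtain ⟨H⟩ := gRing_of_graded h
  have := artinian_op hR
  obtain ⟨h1, h2, X, i1, i2, h3, _, h5⟩ := hY
  rw [gradable_iff]
  exact prep_main H h2 (hS_op H) h5

end Pool.Agent.V1166.GA
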