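import Pool.Agent.V1166.GA.Tw

namespace Pool.Agent.V1166.GA

universe u v w

variable {S : Type u} [Ring S] {A : ℤ → AddSubgroup S}

lemma span_graded (H : GRing A) {M : Type v} [AddCommGroup M] [Module S M] (G : Gr A M)
    (T : Set M) (hT : ∀ x ∈ T, ∀ i, G.e i x ∈ Submodule.span S T) :
    G.Sub (Submodule.span S T) := by
  intro i u hu
  revert i
  refine Submodule.span_induction (p := fun u _ => ∀ i, G.e i u ∈ Submodule.span S T)
    ?_ ?_ ?_ ?_ hu
  · exact fun x hx i => hT x hx i
  · intro i; rw [map_zero]; exact zero_mem _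
  · intro x y _ _ hx hy i; rw [map_add]; exact add_mem (hx i) (hy i)
  · intro a x _ hx
    refine H.ind (P := fun a => ∀ i, G.e i (a • x) ∈ Submodule.span S T) ?_ ?_ ?_ a
    · intro i; rw [zero_smul, map_zero]; exact zero_mem _
    · intro a b ha hb i; rw [add_smul, map_add]; exact add_mem (ha i) (hb i)
    · intro k a ha i
      rw [G.smul' ha]
      exact Submodule.smul_mem _ _ (hx _)

/-- Key factorization: a non-bijective map from a graded indecomposable module to an
indecomposable module factors through a graded non-split map. -/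
theorem thmA (H : GRing A) [IsArtinianRing S] {Y : Type v} [AddCommGroup Y] [Module S Y]
    [Module.Finite S Y] (hY : UInd S Y) (X : GM.{u, v} A) (g : X.X →ₗ[S] Y)
    (hg : ¬ Function.Bijective g) :
    ∃ (Z : Type v) (_ : AddCommGroup Z) (_ : Module S Z) (_ : Module.Finite S Z) (GZ : Gr A Z)
      (s : X.X →ₗ[S] Z) (g' : Z →ₗ[S] Y), Hg X.G GZ 0 s ∧ g' ∘ₗ s = g ∧
        ∀ r : Z →ₗ[S] X.X, Hg GZ X.G 0 r → r ∘ₗ s ≠ LinearMap.id := by
  classical
  obtain ⟨L0, hL0⟩ := exists_bdd H H.gr
  obtain ⟨LX, hLX⟩ := exists_bdd H X.G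
  obtain ⟨F, hF⟩ := gen0 (Y := Y) H hL0
  let TY := Tw H hL0 Y
  let GT := twG H hL0 (Y := Y)
  let gens : Finset TY := (Finset.Icc (-((LX + L0 : ℕ) : ℤ)) (LX + L0 : ℕ) ×ˢ F).image
    fun p => sg H hL0 p.1 p.2
  let Z : Submodule S TY := Submodule.span S (gens : Set TY)
  have hZgr : GT.Sub Z := by
    apply span_graded H
    intro x hx i
    rw [Finset.mem_coe, Finset.mem_image] at hx
    obtain ⟨p, hp, rfl⟩ := hx
    show (twG H hL0).e i _ ∈ Z
    rw [twG_e_sg]
    split_ifs
    · exact Submodule.subset_span (Finset.mem_coe.2 (Finset.mem_image.2 ⟨p, hp, rfl⟩))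
    · exact zero_mem _
  have hmem : ∀ j : ℤ, |j| ≤ (LX + L0 : ℕ) → ∀ y : Y, sg H hL0 j y ∈ Z := by
    intro j hj y
    refine AddSubgroup.closure_induction (p := fun y _ => sg H hL0 j y ∈ Z) ?_ ?_ ?_ ?_ (hF y)
    · rintro z ⟨a, ha, c, hc, rfl⟩
      have h1 := smul_sg H hL0 ha j c
      rw [add_zero] at h1
      rw [← h1]
      apply Submodule.smul_mem
      apply Submodule.subset_span
      rw [Finset.mem_coe, Finset.mem_image]
      exact ⟨(j, c), Finset.mem_product.2 ⟨by rw [Finset.mem_Icc, ← abs_le]; exact hj, hc⟩, rfl⟩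
    · rw [map_zero]; exact zero_mem _
    · intro x y _ _ hx hy; rw [map_add]; exact add_mem hx hy
    · intro x _ hx; rw [map_neg]; exact neg_mem hx
  -- the map to the twisted module
  let s0 : X.X →+ TY := ∑ i ∈ Finset.Icc (-(LX : ℤ)) LX,
    (sg H hL0 i).comp (g.toAddMonoidHom.comp (X.G.e i))
  have hs0 : ∀ l x, GT.e l (s0 x) = sg H hL0 l (g (X.G.e l x)) := by
    intro l x
    simp only [s0, AddMonoidHom.finsetSum_apply, map_sum, AddMonoidHom.comp_apply]
    by_cases hl : l ∈ Finset.Icc (-(LX : ℤ)) LX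
    · rw [Finset.sum_eq_single l]
      · show (twG H hL0).e l _ = _
        rw [twG_e_sg, if_pos rfl]; rfl
      · intro b _ hb
        show (twG H hL0).e l _ = _
        rw [twG_e_sg, if_neg (Ne.symm hb)]
      · intro h; exact absurd hl h
    · have h0 : X.G.e l x = 0 := by
        apply hLX
        rw [Finset.mem_Icc, ← abs_le] at hl
        exact not_le.1 hl
      rw [h0, map_zero, map_zero]
      refine Finset.sum_eq_zero fun b hb => ?_
      show (twG H hL0).e l _ = _
      rw [twG_e_sg, if_neg]
      rintro rfl; exact hl hb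
  let s1 : X.X →ₗ[S] TY :=
    { toFun := s0
      map_add' := map_add _
      map_smul' := by
        intro a x
        rw [RingHom.id_apply]
        refine H.ind (P := fun a => s0 (a • x) = a • s0 x) ?_ ?_ ?_ a
        · rw [zero_smul, zero_smul, map_zero]
        · intro a b ha hb; rw [add_smul, map_add, add_smul, ha, hb]
        · intro k a ha
          apply GT.ext
          intro l
          rw [hs0, X.G.smul' ha, map_smul, GT.smul' ha, hs0, smul_sg H hL0 ha, sub_add_cancel] }
  have hs1 : ∀ x, s1 x = s0 x := fun _ => rfl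
  have hs1Z : ∀ x, s1 x ∈ Z := by
    intro x
    rw [hs1]
    simp only [s0, AddMonoidHom.finsetSum_apply, AddMonoidHom.comp_apply]
    refine sum_mem fun i hi => hmem i ?_ _
    rw [Finset.mem_Icc, ← abs_le] at hi
    push_cast
    omega
  let s : X.X →ₗ[S] Z := s1.codRestrict Z hs1Z
  have hs : ∀ x, ((s x : Z) : TY) = s0 x := fun _ => rfl
  have hfin : Module.Finite S Z := Module.Finite.iff_fg.2 ⟨gens, rfl⟩
  refine ⟨Z, inferInstance, inferInstance, hfin, GT.sub Z hZgr, s, ev H hL0 ∘ₗ Z.subtype,
    ?_, ?_, ?_⟩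
  · intro i x
    rw [add_zero]
    apply Subtype.ext
    rw [Gr.sub_e, hs, hs, hs0]
    apply GT.ext
    intro l
    rw [hs0, X.G.e_e]
    show (twG H hL0).e l _ = _
    rw [twG_e_sg]
    split_ifs with h
    · subst h; rfl
    · rw [map_zero, map_zero]
  · ext x
    show ev H hL0 (s0 x) = g x
    simp only [s0, AddMonoidHom.finsetSum_apply, map_sum, AddMonoidHom.comp_apply]
    have h1 : ∀ i, ev H hL0 (sg H hL0 i (g.toAddMonoidHom (X.G.e i x))) = g (X.G.e i x) :=
      fun i => ev_sg H hL0 i _
    rw [Finset.sum_congr rfl fun i _ => h1 i, ← map_sum, hLX.sum]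
  · intro r hr hrs
    apply hg
    let r' : ℤ → Y → X.X := fun i y =>
      if h : |i| ≤ (LX + L0 : ℕ) then r ⟨sg H hL0 i y, hmem i h y⟩ else 0
    have r'pos : ∀ (i : ℤ) (h : |i| ≤ (LX + L0 : ℕ)) y, r' i y = r ⟨sg H hL0 i y, hmem i h y⟩ := by
      intro i h y
      simp only [r']
      rw [dif_pos h]
    have r'neg : ∀ (i : ℤ) (h : ¬ |i| ≤ (LX + L0 : ℕ)) y, r' i y = 0 := by
      intro i h y
      simp only [r']
      rw [dif_neg h]
    have r'add : ∀ i y y', r' i (y + y') = r' i y + r' i y' := by
      intro i y y'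
      by_cases h : |i| ≤ (LX + L0 : ℕ)
      · rw [r'pos i h, r'pos i h, r'pos i h, ← map_add]
        congr 1
        apply Subtype.ext
        exact map_add _ _ _
      · rw [r'neg i h, r'neg i h, r'neg i h, add_zero]
    have r'e : ∀ l i y, X.G.e l (r' i y) = if l = i then r' i y else 0 := by
      intro l i y
      by_cases h : |i| ≤ (LX + L0 : ℕ)
      · have h1 := hr l ⟨sg H hL0 i y, hmem i h y⟩
        rw [add_zero] at h1
        rw [r'pos i h, h1]
        have h2 : (((GT.sub Z hZgr).e l ⟨sg H hL0 i y, hmem i h y⟩ : Z) : TY) =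
            if l = i then sg H hL0 i y else 0 := twG_e_sg H hL0 l i y
        by_cases hli : l = i
        · rw [if_pos hli] at h2 ⊢
          congr 1
          exact Subtype.ext h2
        · rw [if_neg hli] at h2 ⊢
          have h3 : (GT.sub Z hZgr).e l ⟨sg H hL0 i y, hmem i h y⟩ = 0 := Subtype.ext h2
          rw [h3, map_zero]
      · rw [r'neg i h, map_zero, ite_self]
    have r'big : ∀ i y, (LX : ℤ) < |i| → r' i y = 0 := by
      intro i y hi
      have := r'e i i y
      rw [if_pos rfl, hLX _ _ hi] at this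
      exact this.symm
    have ρe : ∀ l y, X.G.e l (∑ i ∈ Finset.Icc (-(LX : ℤ)) LX, r' i y) = r' l y := by
      intro l y
      rw [map_sum, Finset.sum_congr rfl fun i _ => r'e l i y, Finset.sum_ite_eq]
      split_ifs with h
      · rfl
      · symm
        apply r'big
        rw [Finset.mem_Icc, ← abs_le] at h
        exact not_le.1 h
    have r'smul : ∀ k, ∀ a ∈ A k, ∀ l y, r' l (a • y) = a • r' (l - k) y := by
      intro k a ha l y
      by_cases hk : (L0 : ℤ) < |k|
      · have h0 : a = 0 := by rw [← H.self k a ha]; exact hL0 _ _ hk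
        subst h0
        rw [zero_smul, zero_smul]
        have := r'add l 0 0
        rw [add_zero] at this
        simpa using this
      · by_cases hl : (LX : ℤ) < |l|
        · rw [r'big l _ hl]
          have h1 : X.G.e l (a • r' (l - k) y) = a • r' (l - k) y := by
            rw [X.G.smul' ha, r'e, if_pos rfl]
          rw [← h1, hLX _ _ hl]
        · have hb1 : |l| ≤ (LX + L0 : ℕ) := by push_cast; omega
          have hb2 : |l - k| ≤ (LX + L0 : ℕ) := by
            have := abs_sub l k
            push_cast; omega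
          rw [r'pos l hb1, r'pos _ hb2, ← map_smul]
          congr 1
          apply Subtype.ext
          show sg H hL0 l (a • y) = a • sg H hL0 (l - k) y
          rw [smul_sg H hL0 ha, sub_add_cancel]
    let ρ : Y →ₗ[S] X.X :=
      { toFun := fun y => ∑ i ∈ Finset.Icc (-(LX : ℤ)) LX, r' i y
        map_add' := by
          intro y y'
          rw [← Finset.sum_add_distrib]
          exact Finset.sum_congr rfl fun i _ => r'add i y y'
        map_smul' := by
          intro a y
          rw [RingHom.id_apply]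
          have r0 : ∀ i, r' i 0 = 0 := by
            intro i
            have := r'add i 0 0
            rw [add_zero] at this
            simpa using this
          refine H.ind (P := fun a => ∑ i ∈ Finset.Icc (-(LX : ℤ)) LX, r' i (a • y) =
            a • ∑ i ∈ Finset.Icc (-(LX : ℤ)) LX, r' i y) ?_ ?_ ?_ a
          · rw [zero_smul, zero_smul]
            exact Finset.sum_eq_zero fun i _ => r0 i
          · intro a b ha hb
            rw [add_smul, add_smul, ← ha, ← hb, ← Finset.sum_add_distrib]
            exact Finset.sum_congr rfl fun i _ => r'add i _ _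
          · intro k a ha
            apply X.G.ext
            intro l
            rw [ρe, X.G.smul' ha, ρe, r'smul k a ha] }
    have hρ : ∀ l y, X.G.e l (ρ y) = r' l y := ρe
    have hc : cmp H hLX X.G (ρ ∘ₗ g) 0 = 1 := by
      ext x
      apply X.G.ext
      intro l
      rw [e_cmp, sub_zero, LinearMap.comp_apply, hρ, Module.End.one_apply]
      by_cases hl : (LX : ℤ) < |l|
      · rw [r'big _ _ hl, hLX _ _ hl]
      · have hb1 : |l| ≤ (LX + L0 : ℕ) := by push_cast; omega
        rw [r'pos l hb1]
        have h1 : (⟨sg H hL0 l (g (X.G.e l x)), hmem l hb1 _⟩ : Z) = s (X.G.e l x) := by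
          apply Subtype.ext
          rw [hs]
          apply GT.ext
          intro l'
          rw [hs0, X.G.e_e]
          show (twG H hL0).e l' _ = _
          rw [twG_e_sg]
          split_ifs with h
          · subst h; rfl
          · rw [map_zero, map_zero]
        rw [h1]
        exact LinearMap.congr_fun hrs (X.G.e l x)
    have hb : Function.Bijective (ρ ∘ₗ g : X.X →ₗ[S] X.X) := by
      apply bij_of_cmp H hLX
      rw [hc]
      exact Function.bijective_id
    exact ((UInd.localEnd hY).bij_of_split X.ind.1 g ρ hb).1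

/-- the decomposed version -/
theorem thmA' (H : GRing A) [IsArtinianRing S] {Y : Type v} [AddCommGroup Y] [Module S Y]
    [Module.Finite S Y] (hY : UInd S Y) (X : GM.{u, v} A) (g : X.X →ₗ[S] Y)
    (hg : ¬ Function.Bijective g) :
    g ∈ AddSubgroup.closure {φ : X.X →ₗ[S] Y | ∃ (W : GM.{u, v} A) (s : X.X →ₗ[S] W.X)
      (g' : W.X →ₗ[S] Y), Hg X.G W.G 0 s ∧ ¬ Function.Bijective s ∧ φ = g' ∘ₗ s} := by
  obtain ⟨Z, _, _, _, GZ, s, g', h1, h2, h3⟩ := thmA H hY X g hg
  have hd := dec GZ (b := (Module.length S Z).toNat) (by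
    rw [ENat.natCast_toNat Module.length_ne_top])
  have key : ∀ φ : Module.End S Z, φ ∈ DecSet GZ (Module.length S Z).toNat →
      g' ∘ₗ φ ∘ₗ s ∈ AddSubgroup.closure {φ : X.X →ₗ[S] Y | ∃ (W : GM.{u, v} A)
        (s : X.X →ₗ[S] W.X) (g' : W.X →ₗ[S] Y), Hg X.G W.G 0 s ∧ ¬ Function.Bijective s ∧
          φ = g' ∘ₗ s} := by
    intro φ hφ
    refine AddSubgroup.closure_induction (p := fun φ _ => g' ∘ₗ φ ∘ₗ s ∈ AddSubgroup.closure _)
      ?_ ?_ ?_ ?_ hφ
    · rintro φ ⟨W, π, ι, a0, a1, a2, a3, rfl⟩
      refine AddSubgroup.subset_closure ⟨W, π ∘ₗ s, g' ∘ₗ ι, ?_, ?_, rfl⟩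
      · have := h1.comp a1; rwa [add_zero] at this
      · intro hb
        let e : X.X ≃ₗ[S] W.X := LinearEquiv.ofBijective _ hb
        have he : Hg X.G W.G 0 (e : X.X →ₗ[S] W.X) := by
          have := h1.comp a1; rwa [add_zero] at this
        have he' := he.symm
        rw [neg_zero] at he'
        refine h3 ((e.symm : W.X →ₗ[S] X.X) ∘ₗ π) ?_ ?_
        · have := a1.comp he'; rwa [add_zero] at this
        · ext x
          exact e.symm_apply_apply x
    · rw [LinearMap.zero_comp, LinearMap.comp_zero]; exact zero_mem _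
    · intro x y _ _ hx hy
      rw [LinearMap.add_comp, LinearMap.comp_add]; exact add_mem hx hy
    · intro x _ hx
      rw [LinearMap.neg_comp, LinearMap.comp_neg]; exact neg_mem hx
  have := key 1 hd
  rw [← h2]
  exact this

end Pool.Agent.V1166.GA
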