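import Pool.Agent.V1166.GA.Fin

namespace Pool.Agent.V1166.GA

universe u v w

variable {S : Type u} [Ring S] {A : ℤ → AddSubgroup S}

lemma e_smul_hom (H : GRing A) {M : Type v} [AddCommGroup M] [Module S M] (G : Gr A M)
    {d : ℤ} {m : M} (hm : G.e d m = m) (l : ℤ) (a : S) :
    G.e l (a • m) = H.gr.e (l - d) a • m := by
  obtain ⟨s, hs⟩ := H.gr.fin a
  have e1 : G.e l (a • m) = ∑ i ∈ s, G.e l (H.gr.e i a • m) := by
    conv_lhs => rw [hs, Finset.sum_smul, map_sum]
  have e2 : ∀ i, G.e l (H.gr.e i a • m) = if i = l - d then H.gr.e i a • m else 0 := by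
    intro i
    rw [G.smul' (H.mem i a)]
    conv_lhs => rw [← hm, G.e_e]
    by_cases h : i = l - d
    · rw [if_pos (by omega), if_pos h, hm]
    · rw [if_neg (by omega), if_neg h, smul_zero]
  rw [e1, Finset.sum_congr rfl fun i _ => e2 i, Finset.sum_ite_eq']
  split_ifs with h
  · rfl
  · rw [H.gr.zero_of_notin hs h, zero_smul]

/-- induction on homogeneous elements -/
lemma GRing.ind (H : GRing A) {P : S → Prop} (h0 : P 0) (hadd : ∀ a b, P a → P b → P (a + b))
    (hh : ∀ k, ∀ a ∈ A k, P a) (a : S) : P a := by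
  obtain ⟨s, hs⟩ := H.gr.fin a
  rw [hs]
  exact Finset.sum_induction _ P hadd h0 (fun i _ => hh i _ (H.mem i a))

section gen

/-- each homogeneous component is finitely generated over the degree zero part -/
lemma comp_fg (H : GRing A) [IsNoetherianRing S] (k : ℤ) : ∃ F : Finset S,
    (∀ x ∈ F, x ∈ A k) ∧ ∀ y ∈ A k, ∃ c : S → S, (∀ x, c x ∈ A 0) ∧ y = ∑ x ∈ F, c x * x := by
  have h1 : (Submodule.span S (A k : Set S)).FG := IsNoetherian.noetherian _
  rw [Submodule.fg_span_iff_fg_span_finset_subset] at h1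
  obtain ⟨F, hF, hsp⟩ := h1
  refine ⟨F, fun x hx => hF hx, fun y hy => ?_⟩
  have h2 : y ∈ Submodule.span S (F : Set S) := by
    rw [← hsp]; exact Submodule.subset_span hy
  rw [Submodule.mem_span_finset] at h2
  obtain ⟨f, _, hf⟩ := h2
  refine ⟨fun x => H.gr.e 0 (f x), fun x => H.mem 0 _, ?_⟩
  have h3 : y = H.gr.e k y := (H.self k y hy).symm
  rw [h3, ← hf, map_sum]
  refine Finset.sum_congr rfl fun x hx => ?_
  rw [e_smul_hom H H.gr (H.self k x (hF hx)) k (f x), sub_self, smul_eq_mul]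

variable {Y : Type v} [AddCommGroup Y] [Module S Y]

lemma gen0 (H : GRing A) [IsNoetherianRing S] {L0 : ℕ} (hL0 : H.gr.Bdd L0)
    [Module.Finite S Y] : ∃ F : Finset Y, ∀ y : Y,
      y ∈ AddSubgroup.closure {z : Y | ∃ a ∈ A 0, ∃ c ∈ F, z = a • c} := by
  classical
  obtain ⟨T, hT⟩ := (Module.finite_def.1 (inferInstance : Module.Finite S Y))
  choose F hF1 hF2 using comp_fg H
  let F' : Finset Y := (Finset.Icc (-(L0 : ℤ)) L0).biUnion fun k =>
    (F k ×ˢ T).image fun p => p.1 • p.2
  have hmemF' : ∀ k ∈ Finset.Icc (-(L0 : ℤ)) L0, ∀ x ∈ F k, ∀ t ∈ T, x • t ∈ F' := by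
    intro k hk x hx t ht
    rw [Finset.mem_biUnion]
    refine ⟨k, hk, ?_⟩
    rw [Finset.mem_image]
    exact ⟨(x, t), Finset.mem_product.2 ⟨hx, ht⟩, rfl⟩
  refine ⟨F', fun y => ?_⟩
  set P := AddSubgroup.closure {z : Y | ∃ a ∈ A 0, ∃ c ∈ F', z = a • c}
  have key : ∀ t ∈ T, ∀ a : S, a • t ∈ P := by
    intro t ht a
    have : a • t = ∑ k ∈ Finset.Icc (-(L0 : ℤ)) L0, H.gr.e k a • t := by
      conv_lhs => rw [← hL0.sum a, Finset.sum_smul]
    rw [this]
    refine sum_mem fun k hk => ?_
    obtain ⟨c, hc0, hc⟩ := hF2 k _ (H.mem k a)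
    rw [hc, Finset.sum_smul]
    refine sum_mem fun x hx => AddSubgroup.subset_closure ⟨c x, hc0 x, x • t, ?_, ?_⟩
    · exact hmemF' k hk x hx t ht
    · rw [mul_smul]
  have hy : y ∈ Submodule.span S (T : Set Y) := by rw [hT]; trivial
  rw [Submodule.mem_span_finset] at hy
  obtain ⟨f, _, hf⟩ := hy
  rw [← hf]
  exact sum_mem fun t ht => key t ht _

end gen

/-- the twisted Laurent module -/
def Tw (H : GRing A) {L0 : ℕ} (_ : H.gr.Bdd L0) (Y : Type v) [AddCommGroup Y] [Module S Y] :
    Type v := ℤ →₀ Y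

section tw

variable (H : GRing A) {L0 : ℕ} (hL0 : H.gr.Bdd L0) {Y : Type v} [AddCommGroup Y] [Module S Y]

noncomputable instance : AddCommGroup (Tw H hL0 Y) :=
  inferInstanceAs (AddCommGroup (ℤ →₀ Y))

/-- homogeneous generator -/
noncomputable def sg (i : ℤ) : Y →+ Tw H hL0 Y := Finsupp.singleAddHom i

lemma tw_hom_ext {N : Type*} [AddCommGroup N] {f g : Tw H hL0 Y →+ N}
    (h : ∀ i y, f (sg H hL0 i y) = g (sg H hL0 i y)) : f = g :=
  Finsupp.addHom_ext h

lemma tw_ind {P : Tw H hL0 Y → Prop} (h0 : P 0) (hadd : ∀ a b, P a → P b → P (a + b))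
    (hs : ∀ i y, P (sg H hL0 i y)) (u : Tw H hL0 Y) : P u :=
  Finsupp.induction_linear u h0 hadd hs

/-- coefficient -/
noncomputable def cf (i : ℤ) : Tw H hL0 Y →+ Y := Finsupp.applyAddHom i

lemma cf_sg (i j : ℤ) (y : Y) : cf H hL0 i (sg H hL0 j y) = if i = j then y else 0 := by
  show (Finsupp.single j y) i = _
  split_ifs with h
  · subst h; rw [Finsupp.single_eq_same]
  · rw [Finsupp.single_eq_of_ne h]

/-- lifting -/
noncomputable def lft {N : Type*} [AddCommGroup N] (f : ℤ → Y →+ N) : Tw H hL0 Y →+ N :=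
  Finsupp.liftAddHom f

lemma lft_sg {N : Type*} [AddCommGroup N] (f : ℤ → Y →+ N) (i : ℤ) (y : Y) :
    lft H hL0 f (sg H hL0 i y) = f i y := by
  show (Finsupp.liftAddHom f) (Finsupp.single i y) = _
  rw [Finsupp.liftAddHom_apply_single]

/-- the twisted action -/
noncomputable def act : S →+ (Tw H hL0 Y →+ Tw H hL0 Y) where
  toFun a := lft H hL0 (fun i => ∑ k ∈ Finset.Icc (-(L0 : ℤ)) L0,
    (sg H hL0 (i + k)).comp (DistribSMul.toAddMonoidHom Y (H.gr.e k a)))
  map_zero' := by
    apply tw_hom_ext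
    intro i y
    rw [lft_sg, AddMonoidHom.finsetSum_apply]
    refine Finset.sum_eq_zero fun k _ => ?_
    simp
  map_add' a b := by
    apply tw_hom_ext
    intro i y
    rw [AddMonoidHom.add_apply, lft_sg, lft_sg, lft_sg, AddMonoidHom.finsetSum_apply,
      AddMonoidHom.finsetSum_apply, AddMonoidHom.finsetSum_apply, ← Finset.sum_add_distrib]
    refine Finset.sum_congr rfl fun k _ => ?_
    simp [add_smul]

lemma act_sg (a : S) (i : ℤ) (y : Y) : act H hL0 a (sg H hL0 i y) =
    ∑ k ∈ Finset.Icc (-(L0 : ℤ)) L0, sg H hL0 (i + k) (H.gr.e k a • y) := by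
  show lft H hL0 _ (sg H hL0 i y) = _
  rw [lft_sg, AddMonoidHom.finsetSum_apply]
  rfl

lemma act_sg_hom {k : ℤ} {a : S} (ha : a ∈ A k) (i : ℤ) (y : Y) :
    act H hL0 a (sg H hL0 i y) = sg H hL0 (i + k) (a • y) := by
  rw [act_sg]
  have e : ∀ j, H.gr.e j a = if j = k then a else 0 := by
    intro j
    conv_lhs => rw [← H.self k a ha, H.gr.e_e]
    rw [H.self k a ha]
  by_cases hk : k ∈ Finset.Icc (-(L0 : ℤ)) L0
  · rw [Finset.sum_eq_single k]
    · rw [e, if_pos rfl]
    · intro b _ hb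
      rw [e, if_neg hb, zero_smul, map_zero]
    · intro h; exact absurd hk h
  · have h0 : a = 0 := by
      rw [← H.self k a ha]
      apply hL0
      rw [Finset.mem_Icc, ← abs_le] at hk
      exact not_le.1 hk
    rw [h0]
    simp

noncomputable instance : Module S (Tw H hL0 Y) where
  smul a u := act H hL0 a u
  smul_zero a := map_zero _
  smul_add a := map_add _
  add_smul a b u := by
    show act H hL0 (a + b) u = act H hL0 a u + act H hL0 b u
    rw [map_add]; rfl
  zero_smul u := by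
    show act H hL0 0 u = 0
    rw [map_zero]; rfl
  one_smul u := by
    show act H hL0 1 u = u
    refine tw_ind H hL0 (P := fun u => act H hL0 1 u = u) (map_zero _) ?_ ?_ u
    · intro a b ha hb; rw [map_add, ha, hb]
    · intro i y
      rw [act_sg_hom H hL0 H.one, add_zero, one_smul]
  mul_smul a b u := by
    show act H hL0 (a * b) u = act H hL0 a (act H hL0 b u)
    refine H.ind (P := fun a => act H hL0 (a * b) u = act H hL0 a (act H hL0 b u)) ?_ ?_ ?_ a
    · rw [zero_mul, map_zero]; rfl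
    · intro a a' h h'
      rw [add_mul, map_add, map_add, AddMonoidHom.add_apply, AddMonoidHom.add_apply, h, h']
    · intro k a ha
      refine H.ind (P := fun b => act H hL0 (a * b) u = act H hL0 a (act H hL0 b u)) ?_ ?_ ?_ b
      · rw [mul_zero, map_zero, AddMonoidHom.zero_apply, map_zero]
      · intro b b' h h'
        rw [mul_add, map_add, map_add, AddMonoidHom.add_apply, AddMonoidHom.add_apply, map_add,
          h, h']
      · intro l b hb
        refine tw_ind H hL0 (P := fun u => act H hL0 (a * b) u = act H hL0 a (act H hL0 b u))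
          ?_ ?_ ?_ u
        · simp only [map_zero]
        · intro u u' h h'; simp only [map_add, h, h']
        · intro i y
          have hab : a * b ∈ A (k + l) := by
            have := H.gr.smul k l a b ha
            rw [H.self l b hb, smul_eq_mul] at this
            rw [← this]
            exact H.mem _ _
          rw [act_sg_hom H hL0 hab, act_sg_hom H hL0 hb, act_sg_hom H hL0 ha, mul_smul]
          rw [add_comm k l, add_assoc]

lemma smul_sg {k : ℤ} {a : S} (ha : a ∈ A k) (i : ℤ) (y : Y) :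
    a • sg H hL0 i y = sg H hL0 (i + k) (a • y) := act_sg_hom H hL0 ha i y

/-- the grading -/
noncomputable def twG : Gr A (Tw H hL0 Y) where
  e i := (sg H hL0 i).comp (cf H hL0 i)
  ee i m := by
    simp only [AddMonoidHom.comp_apply]
    rw [cf_sg, if_pos rfl]
  ne i j m h := by
    simp only [AddMonoidHom.comp_apply]
    rw [cf_sg, if_neg h, map_zero]
  fin m := ⟨Finsupp.support m, (Finsupp.sum_single m).symm⟩
  smul i j a m ha := by
    simp only [AddMonoidHom.comp_apply]
    refine tw_ind H hL0 (P := fun m => sg H hL0 (i + j) (cf H hL0 (i + j) (a • m)) =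
      a • sg H hL0 j (cf H hL0 j m)) ?_ ?_ ?_ m
    · simp only [smul_zero, map_zero]
    · intro u u' h h'
      rw [smul_add, map_add, map_add, map_add, map_add, smul_add, h, h']
    · intro k y
      rw [smul_sg H hL0 ha, cf_sg, cf_sg]
      by_cases hk : k = j
      · subst hk
        rw [if_pos (add_comm _ _), if_pos rfl, smul_sg H hL0 ha, add_comm k i]
      · rw [if_neg (by omega), if_neg (by omega), map_zero, map_zero, smul_zero]

lemma twG_e (i : ℤ) (u : Tw H hL0 Y) : (twG H hL0).e i u = sg H hL0 i (cf H hL0 i u) := rfl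

lemma twG_e_sg (i j : ℤ) (y : Y) :
    (twG H hL0).e i (sg H hL0 j y) = if i = j then sg H hL0 j y else 0 := by
  rw [twG_e, cf_sg]
  split_ifs with h
  · subst h; rfl
  · rw [map_zero]

/-- evaluation at one -/
noncomputable def ev : Tw H hL0 Y →ₗ[S] Y where
  toFun := lft H hL0 (fun _ : ℤ => AddMonoidHom.id Y)
  map_add' := map_add _
  map_smul' a m := by
    rw [RingHom.id_apply]
    refine H.ind (P := fun a => lft H hL0 (fun _ : ℤ => AddMonoidHom.id Y) (a • m) =
      a • lft H hL0 (fun _ : ℤ => AddMonoidHom.id Y) m) ?_ ?_ ?_ a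
    · rw [zero_smul, zero_smul, map_zero]
    · intro a b h h'
      rw [add_smul, add_smul, map_add, h, h']
    · intro k a ha
      refine tw_ind H hL0 (P := fun m => lft H hL0 (fun _ : ℤ => AddMonoidHom.id Y) (a • m) =
        a • lft H hL0 (fun _ : ℤ => AddMonoidHom.id Y) m) ?_ ?_ ?_ m
      · rw [smul_zero, map_zero, smul_zero]
      · intro u u' h h'
        rw [smul_add, map_add, map_add, smul_add, h, h']
      · intro i y
        rw [smul_sg H hL0 ha, lft_sg, lft_sg]
        rfl

lemma ev_sg (i : ℤ) (y : Y) : ev H hL0 (sg H hL0 i y) = y := lft_sg H hL0 _ i y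

end tw

end Pool.Agent.V1166.GA
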